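import Pool.Agent.Lib.MP_80950a_lc.Defs

/-!
Arithmetical sets: normal forms, universal sets and diagonalization.
-/

set_option autoImplicit false

namespace Pool.Agent.Lib.MP_80950a_lc

/-- normal form: `x ∈ A` iff some `f` has all its initial segments accepted -/
def Form (A : Set ℕ) : Prop :=
  ∃ T : ℕ × List ℕ → Bool, Computable T ∧
    ∀ x, x ∈ A ↔ ∃ f : ℕ → ℕ, ∀ m, T (x, (List.range m).map f) = false

theorem form_rec {A : Set ℕ} (h : ComputablePred fun x => x ∈ A) : Form A := by
  obtain ⟨f, hf, hA⟩ := ComputablePred.computable_iff.1 h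
  refine ⟨fun p => !(f p.1), Primrec.not.to_comp.comp (hf.comp Computable.fst), fun x => ?_⟩
  have h1 : (x ∈ A) = (f x : Prop) := congrFun hA x
  rw [h1]
  simp

theorem form_ex {B : Set ℕ} (h : Form B) : Form {x | ∃ y, Nat.pair x y ∈ B} := by
  obtain ⟨T, hT, hB⟩ := h
  refine ⟨fun p => cond (decide (p.2.length = 0)) false (T (Nat.pair p.1 p.2.headI, p.2.tail)),
    ?_, fun x => ?_⟩
  · have h1 : Computable fun p : ℕ × List ℕ => decide (p.2.length = 0) :=
      (Primrec.eq.comp (Primrec.list_length.comp Primrec.snd) (Primrec.const 0)).decide.to_comp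
    refine Computable.cond h1 (Computable.const false) (hT.comp ?_)
    exact Computable.pair
      (Primrec₂.natPair.comp Primrec.fst (Primrec.list_headI.comp Primrec.snd)).to_comp
      (Primrec.list_tail.comp Primrec.snd).to_comp
  · simp only [Set.mem_ofPred_eq, hB]
    constructor
    · rintro ⟨y, f, hf⟩
      refine ⟨fun i => Nat.casesOn i y f, fun m => ?_⟩
      cases m with
      | zero => simp
      | succ m =>
        rw [List.range_succ_eq_map]
        simp only [List.map_cons, List.map_map]
        simp only [List.length_cons, Nat.add_eq_zero_iff, one_ne_zero, and_false, decide_false,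
          cond_false, List.headI_cons, List.tail_cons]
        exact hf m
    · rintro ⟨f, hf⟩
      refine ⟨f 0, fun i => f (i + 1), fun m => ?_⟩
      have := hf (m + 1)
      rw [List.range_succ_eq_map] at this
      simp only [List.map_cons, List.map_map] at this
      simp only [List.length_cons, Nat.add_eq_zero_iff, one_ne_zero, and_false, decide_false,
          cond_false, List.headI_cons, List.tail_cons] at this
      exact this

theorem form_all {B : Set ℕ} (h : Form B) : Form {x | ∀ y, Nat.pair x y ∈ B} := by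
  obtain ⟨T, hT, hB⟩ := h
  refine ⟨fun p => T (Nat.pair p.1 (Nat.unpair p.2.length).1,
    (List.range (Nat.unpair p.2.length).2).map
      fun i => p.2.getD (Nat.pair (Nat.unpair p.2.length).1 i) 0), ?_, fun x => ?_⟩
  · have hl : Primrec fun p : ℕ × List ℕ => Nat.unpair p.2.length :=
      Primrec.unpair.comp (Primrec.list_length.comp Primrec.snd)
    refine hT.comp (Computable.pair ?_ ?_)
    · exact (Primrec₂.natPair.comp Primrec.fst (Primrec.fst.comp hl)).to_comp
    · apply Primrec.to_comp
      refine Primrec.list_map (Primrec.list_range.comp (Primrec.snd.comp hl)) ?_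
      apply Primrec₂.mk
      exact (Primrec.list_getD 0).comp (Primrec.snd.comp Primrec.fst)
        (Primrec₂.natPair.comp (Primrec.fst.comp (hl.comp Primrec.fst)) Primrec.snd)
  · simp only [Set.mem_ofPred_eq, hB]
    constructor
    · intro h
      choose f hf using h
      refine ⟨fun j => f (Nat.unpair j).1 (Nat.unpair j).2, fun m => ?_⟩
      have h1 := hf (Nat.unpair m).1 (Nat.unpair m).2
      simp only [List.length_map, List.length_range]
      rw [← h1]
      congr 2
      apply List.map_congr_left
      intro i hi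
      rw [List.mem_range] at hi
      have h2 : Nat.pair (Nat.unpair m).1 i < m := by
        conv_rhs => rw [← Nat.pair_unpair m]
        exact Nat.pair_lt_pair_right _ hi
      rw [List.getD_eq_getElem _ _ (by simpa using h2)]
      simp
    · rintro ⟨f, hf⟩ y
      refine ⟨fun i => f (Nat.pair y i), fun m => ?_⟩
      have h1 := hf (Nat.pair y m)
      simp only [List.length_map, List.length_range, Nat.unpair_pair] at h1
      rw [← h1]
      congr 2
      apply List.map_congr_left
      intro i hi
      rw [List.mem_range] at hi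
      have h2 : Nat.pair y i < Nat.pair y m := Nat.pair_lt_pair_right _ hi
      rw [List.getD_eq_getElem _ _ (by simpa using h2)]
      simp

theorem form_preim {A : Set ℕ} (h : Form A) {g : ℕ → ℕ} (hg : Computable g) :
    Form {x | g x ∈ A} := by
  obtain ⟨T, hT, hA⟩ := h
  refine ⟨fun p => T (g p.1, p.2), hT.comp (Computable.pair (hg.comp Computable.fst)
    Computable.snd), fun x => ?_⟩
  simp only [Set.mem_ofPred_eq, hA]

/-- both `A` and its complement have normal forms -/
def FF (A : Set ℕ) : Prop := Form A ∧ Form Aᶜ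

theorem ff_compl {A : Set ℕ} (h : FF A) : FF Aᶜ := ⟨h.2, by rw [compl_compl]; exact h.1⟩

theorem ff_rec {A : Set ℕ} (h : ComputablePred fun x => x ∈ A) : FF A :=
  ⟨form_rec h, form_rec (A := Aᶜ) h.not⟩

theorem ff_preim {A : Set ℕ} (h : FF A) {g : ℕ → ℕ} (hg : Computable g) :
    FF {x | g x ∈ A} := ⟨form_preim h.1 hg, form_preim h.2 hg⟩

theorem ff_ex {B : Set ℕ} (h : FF B) : FF {x | ∃ y, Nat.pair x y ∈ B} := by
  refine ⟨form_ex h.1, ?_⟩
  have : {x | ∃ y, Nat.pair x y ∈ B}ᶜ = {x | ∀ y, Nat.pair x y ∈ Bᶜ} := by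
    ext x
    simp
  rw [this]
  exact form_all h.2

open Nat.Partrec (Code)

/-- universal sets -/
def US : ℕ → Set ℕ
  | 0 => {p | (Nat.Partrec.Code.eval (Denumerable.ofNat Code (Nat.unpair p).1)
      (Nat.unpair p).2).Dom}
  | n + 1 => {p | ∃ y, Nat.pair (Nat.unpair p).1 (Nat.pair (Nat.unpair p).2 y) ∉ US n}

theorem ff_US (n : ℕ) : FF (US n) := by
  induction n with
  | zero =>
    have h1 : US 0 = {p | ∃ k, Nat.pair p k ∈ {q : ℕ |
        (Nat.Partrec.Code.evaln (Nat.unpair q).2
          (Denumerable.ofNat Code (Nat.unpair (Nat.unpair q).1).1)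
          (Nat.unpair (Nat.unpair q).1).2).isSome = true}} := by
      ext p
      simp only [US, Set.mem_ofPred_eq, Nat.unpair_pair, Part.dom_iff_mem,
        Nat.Partrec.Code.evaln_complete, Option.isSome_iff_exists, Option.mem_def]
      rw [exists_comm]
    rw [h1]
    apply ff_ex
    apply ff_rec
    simp only [Set.mem_ofPred_eq]
    apply Computable.computablePred
    apply Primrec.to_comp
    have h1 : Primrec fun q : ℕ => (Nat.unpair q).2 := Primrec.snd.comp Primrec.unpair
    have h2 : Primrec fun q : ℕ => Denumerable.ofNat Code (Nat.unpair (Nat.unpair q).1).1 :=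
      (Primrec.ofNat Code).comp (Primrec.fst.comp (Primrec.unpair.comp
        (Primrec.fst.comp Primrec.unpair)))
    have h3 : Primrec fun q : ℕ => (Nat.unpair (Nat.unpair q).1).2 :=
      Primrec.snd.comp (Primrec.unpair.comp (Primrec.fst.comp Primrec.unpair))
    refine (Primrec.option_isSome.comp (Nat.Partrec.Code.primrec_evaln.comp
      (Primrec.pair (Primrec.pair h1 h2) h3))).of_eq fun a => ?_
    simp
  | succ n ih =>
    have h1 : US (n + 1) = {p | ∃ y, Nat.pair p y ∈ {q : ℕ |
        Nat.pair (Nat.unpair (Nat.unpair q).1).1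
          (Nat.pair (Nat.unpair (Nat.unpair q).1).2 (Nat.unpair q).2) ∈ (US n)ᶜ}} := by
      ext p
      simp only [US, Set.mem_ofPred_eq, Nat.unpair_pair, Set.mem_compl_iff]
    rw [h1]
    apply ff_ex
    apply ff_preim (ff_compl ih)
    apply Primrec.to_comp
    refine Primrec₂.natPair.comp ?_ (Primrec₂.natPair.comp ?_ ?_)
    · exact Primrec.fst.comp (Primrec.unpair.comp (Primrec.fst.comp Primrec.unpair))
    · exact Primrec.snd.comp (Primrec.unpair.comp (Primrec.fst.comp Primrec.unpair))
    · exact Primrec.snd.comp Primrec.unpair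

theorem universal (n : ℕ) : ∀ A : Set ℕ, SigmaSet n A → ∃ e, ∀ x, x ∈ A ↔ Nat.pair e x ∈ US n := by
  induction n with
  | zero =>
    intro A hA
    have h1 : REPred fun x => x ∈ A := ComputablePred.to_re hA
    have h2 : Partrec fun a => (Part.assert (a ∈ A) fun _ => Part.some ()).map
        fun _ => (0 : ℕ) := Partrec.map h1 (Computable.const 0).to₂
    have h3 : Nat.Partrec fun a => (Part.assert (a ∈ A) fun _ => Part.some ()).map
        fun _ => (0 : ℕ) := Partrec.nat_iff.1 h2
    obtain ⟨c, hc⟩ := Nat.Partrec.Code.exists_code.1 h3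
    refine ⟨Encodable.encode c, fun x => ?_⟩
    simp only [US, Set.mem_ofPred_eq, Nat.unpair_pair, Denumerable.ofNat_encode, hc]
    simp [Part.dom_iff_mem, Part.mem_assert_iff]
  | succ n ih =>
    intro A hA
    obtain ⟨B, hB, hAB⟩ := hA
    obtain ⟨e, he⟩ := ih B hB
    refine ⟨e, fun x => ?_⟩
    rw [hAB]
    simp only [US, Set.mem_ofPred_eq, Nat.unpair_pair, he]

theorem sigma_preim (n : ℕ) : ∀ (A : Set ℕ), SigmaSet n A → ∀ g : ℕ → ℕ, Computable g →
    SigmaSet n {x | g x ∈ A} := by
  induction n with
  | zero =>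
    intro A hA g hg
    obtain ⟨f, hf, hA⟩ := ComputablePred.computable_iff.1 hA
    refine ComputablePred.computable_iff.2 ⟨fun x => f (g x), hf.comp hg, ?_⟩
    funext x
    exact congrFun hA (g x)
  | succ n ih =>
    intro A hA g hg
    obtain ⟨B, hB, hAB⟩ := hA
    refine ⟨{p | Nat.pair (g (Nat.unpair p).1) (Nat.unpair p).2 ∈ B}, ih B hB _ ?_, fun x => ?_⟩
    · exact Primrec₂.natPair.to_comp.comp
        (hg.comp (Primrec.fst.comp Primrec.unpair).to_comp)
        (Primrec.snd.comp Primrec.unpair).to_comp
    · simp only [Set.mem_ofPred_eq, Nat.unpair_pair, hAB]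

/-- a set whose complement many-one bounds all the sets in normal form is not arithmetical -/
theorem not_sigma_of_reduction {W : Set ℕ}
    (h : ∀ A : Set ℕ, Form A → ∃ g : ℕ → ℕ, Computable g ∧ ∀ x, x ∈ A ↔ g x ∉ W) (n : ℕ) :
    ¬ SigmaSet n W := by
  intro hW
  obtain ⟨g, hg, hD⟩ := h {x | Nat.pair x x ∈ US n}
    (form_preim (ff_US n).1 (Primrec₂.natPair.comp Primrec.id Primrec.id).to_comp)
  obtain ⟨e, he⟩ := universal n _ (sigma_preim n W hW g hg)
  have h1 := hD e
  have h2 := he e
  simp only [Set.mem_ofPred_eq] at h1 h2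
  tauto

end Pool.Agent.Lib.MP_80950a_lc
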