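import Pool.Agent.Lib.MP_80950a_lc.Defs

/-!
The Gödel numbering is a bijection.
-/

set_option autoImplicit false

namespace Pool.Agent.Lib.MP_80950a_lc

theorem mem_lt_encode {l : List ℕ} {a : ℕ} (h : a ∈ l) : a < Encodable.encode l := by
  induction l with
  | nil => simp at h
  | cons b l ih =>
    rw [Encodable.encode_list_cons]
    rcases List.mem_cons.1 h with rfl | h
    · exact Nat.lt_succ_of_le (Nat.left_le_pair _ _)
    · exact (ih h).trans (Nat.lt_succ_of_le (Nat.right_le_pair _ _))

theorem Tm.code_injective : Function.Injective Tm.code := by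
  intro t
  induction t with
  | var i =>
    intro t' h
    cases t' with
    | var j => simp [Tm.code] at h; rw [h]
    | fn k n ts => simp only [Tm.code] at h; omega
  | fn k n ts ih =>
    intro t' h
    cases t' with
    | var j => simp only [Tm.code] at h; omega
    | fn k' n' ts' =>
      simp only [Tm.code] at h
      have h1 : Nat.pair k (Encodable.encode (List.ofFn fun j => (ts j).code)) =
        Nat.pair k' (Encodable.encode (List.ofFn fun j => (ts' j).code)) := by omega
      obtain ⟨h2, h3⟩ := Nat.pair_eq_pair.1 h1
      have h4 := Encodable.encode_injective h3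
      have h5 : n = n' := by simpa using congrArg List.length h4
      subst h5; subst h2
      have h6 := List.ofFn_injective h4
      congr 1
      funext j
      exact ih j (congrFun h6 j)

theorem exists_list_of_nat (e : ℕ) : ∃ l : List ℕ, Encodable.encode l = e :=
  ⟨Denumerable.ofNat (List ℕ) e, Denumerable.encode_ofNat e⟩

theorem Tm.code_surjective : Function.Surjective Tm.code := by
  intro m
  induction m using Nat.strong_induction_on with
  | _ m ih =>
    rcases Nat.even_or_odd' m with ⟨c, rfl | rfl⟩
    · exact ⟨Tm.var c, rfl⟩
    · obtain ⟨l, hl⟩ := exists_list_of_nat (Nat.unpair c).2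
      have hlt : ∀ a ∈ l, a < 2 * c + 1 := by
        intro a ha
        have := mem_lt_encode ha
        rw [hl] at this
        have h2 := Nat.unpair_right_le c
        omega
      have : ∀ j : Fin l.length, ∃ t : Tm, t.code = l.get j := fun j =>
        ih _ (hlt _ (List.get_mem l j))
      choose ts hts using this
      refine ⟨Tm.fn (Nat.unpair c).1 l.length ts, ?_⟩
      simp only [Tm.code, hts]
      rw [List.ofFn_get, hl, Nat.pair_unpair]

theorem Fm.code_injective : Function.Injective Fm.code := by
  intro F
  induction F with
  | bot =>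
    intro G h
    cases G <;> simp only [Fm.code] at h <;> first | rfl | omega
  | atom k n ts =>
    intro G h
    cases G with
    | atom k' n' ts' =>
      simp only [Fm.code] at h
      have h1 : Nat.pair k (Encodable.encode (List.ofFn fun j => (ts j).code)) =
        Nat.pair k' (Encodable.encode (List.ofFn fun j => (ts' j).code)) := by omega
      obtain ⟨h2, h3⟩ := Nat.pair_eq_pair.1 h1
      have h4 := Encodable.encode_injective h3
      have h5 : n = n' := by simpa using congrArg List.length h4
      subst h5; subst h2
      have h6 := List.ofFn_injective h4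
      congr 1
      funext j
      exact Tm.code_injective (congrFun h6 j)
    | _ => simp only [Fm.code] at h; omega
  | and A B ihA ihB =>
    intro G h
    cases G with
    | and A' B' =>
      simp only [Fm.code] at h
      obtain ⟨h1, h2⟩ := Nat.pair_eq_pair.1 (show Nat.pair A.code B.code = Nat.pair A'.code B'.code by omega)
      rw [ihA h1, ihB h2]
    | _ => simp only [Fm.code] at h; omega
  | or A B ihA ihB =>
    intro G h
    cases G with
    | or A' B' =>
      simp only [Fm.code] at h
      obtain ⟨h1, h2⟩ := Nat.pair_eq_pair.1 (show Nat.pair A.code B.code = Nat.pair A'.code B'.code by omega)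
      rw [ihA h1, ihB h2]
    | _ => simp only [Fm.code] at h; omega
  | imp A B ihA ihB =>
    intro G h
    cases G with
    | imp A' B' =>
      simp only [Fm.code] at h
      obtain ⟨h1, h2⟩ := Nat.pair_eq_pair.1 (show Nat.pair A.code B.code = Nat.pair A'.code B'.code by omega)
      rw [ihA h1, ihB h2]
    | _ => simp only [Fm.code] at h; omega
  | all i A ihA =>
    intro G h
    cases G with
    | all i' A' =>
      simp only [Fm.code] at h
      obtain ⟨h1, h2⟩ := Nat.pair_eq_pair.1 (show Nat.pair i A.code = Nat.pair i' A'.code by omega)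
      rw [h1, ihA h2]
    | _ => simp only [Fm.code] at h; omega
  | ex i A ihA =>
    intro G h
    cases G with
    | ex i' A' =>
      simp only [Fm.code] at h
      obtain ⟨h1, h2⟩ := Nat.pair_eq_pair.1 (show Nat.pair i A.code = Nat.pair i' A'.code by omega)
      rw [h1, ihA h2]
    | _ => simp only [Fm.code] at h; omega

theorem Fm.code_surjective : Function.Surjective Fm.code := by
  intro m
  induction m using Nat.strong_induction_on with
  | _ m ih =>
    rcases Nat.eq_zero_or_pos m with rfl | hm
    · exact ⟨Fm.bot, rfl⟩
    · have hr : (m - 1) % 6 < 6 := Nat.mod_lt _ (by norm_num)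
      have hd : 6 * ((m - 1) / 6) + (m - 1) % 6 = m - 1 := Nat.div_add_mod _ _
      set p := (m - 1) / 6 with hp
      have hl := Nat.unpair_left_le p
      have hrr := Nat.unpair_right_le p
      interval_cases hq : (m - 1) % 6
      · obtain ⟨l, hl⟩ := exists_list_of_nat (Nat.unpair p).2
        choose ts hts using fun j : Fin l.length => Tm.code_surjective (l.get j)
        refine ⟨Fm.atom (Nat.unpair p).1 l.length ts, ?_⟩
        simp only [Fm.code, hts]
        rw [List.ofFn_get, hl, Nat.pair_unpair]
        omega
      · obtain ⟨A, hA⟩ := ih (Nat.unpair p).1 (by omega)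
        obtain ⟨B, hB⟩ := ih (Nat.unpair p).2 (by omega)
        refine ⟨Fm.and A B, ?_⟩
        simp only [Fm.code, hA, hB, Nat.pair_unpair]
        omega
      · obtain ⟨A, hA⟩ := ih (Nat.unpair p).1 (by omega)
        obtain ⟨B, hB⟩ := ih (Nat.unpair p).2 (by omega)
        refine ⟨Fm.or A B, ?_⟩
        simp only [Fm.code, hA, hB, Nat.pair_unpair]
        omega
      · obtain ⟨A, hA⟩ := ih (Nat.unpair p).1 (by omega)
        obtain ⟨B, hB⟩ := ih (Nat.unpair p).2 (by omega)
        refine ⟨Fm.imp A B, ?_⟩
        simp only [Fm.code, hA, hB, Nat.pair_unpair]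
        omega
      · obtain ⟨A, hA⟩ := ih (Nat.unpair p).2 (by omega)
        refine ⟨Fm.all (Nat.unpair p).1 A, ?_⟩
        simp only [Fm.code, hA, Nat.pair_unpair]
        omega
      · obtain ⟨A, hA⟩ := ih (Nat.unpair p).2 (by omega)
        refine ⟨Fm.ex (Nat.unpair p).1 A, ?_⟩
        simp only [Fm.code, hA, Nat.pair_unpair]
        omega

/-- inverse of the Gödel numbering -/
noncomputable def Fm.ofCode : ℕ → Fm := Function.surjInv Fm.code_surjective

theorem Fm.code_ofCode (m : ℕ) : (Fm.ofCode m).code = m :=
  Function.surjInv_eq Fm.code_surjective m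

theorem Fm.ofCode_code (F : Fm) : Fm.ofCode F.code = F :=
  Fm.code_injective (Fm.code_ofCode _)

end Pool.Agent.Lib.MP_80950a_lc
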