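import Mathlib

/-!
First-order Gödel logics, prenex formulas, a Gödel numbering, and arithmetical sets.
-/

set_option autoImplicit false

namespace Pool.Agent.Lib.MP_80950a_lc

/-- First-order terms: `var i` is the `i`-th variable, and `fn k n ts` is the `k`-th `n`-ary
function symbol applied to the terms `ts 0, ..., ts (n-1)`. -/
inductive Tm : Type
  | var (i : ℕ) : Tm
  | fn (k n : ℕ) (ts : Fin n → Tm) : Tm

/-- First-order formulas: `atom k n ts` is the `k`-th `n`-ary predicate symbol applied to
`ts 0, ..., ts (n-1)`; `all i A` and `ex i A` quantify the `i`-th variable. -/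
inductive Fm : Type
  | bot : Fm
  | atom (k n : ℕ) (ts : Fin n → Tm) : Fm
  | and (A B : Fm) : Fm
  | or (A B : Fm) : Fm
  | imp (A B : Fm) : Fm
  | all (i : ℕ) (A : Fm) : Fm
  | ex (i : ℕ) (A : Fm) : Fm

/-- An interpretation over the domain `U`: function symbols are interpreted by functions on `U`,
predicate symbols by real-valued functions (the values are required to lie in the truth value
set `V` in the definition of validity). -/
structure Interp (U : Type) where
  fn : (k n : ℕ) → (Fin n → U) → U
  pred : (k n : ℕ) → (Fin n → U) → ℝ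

/-- value of a term under the assignment `s` -/
def Tm.val {U : Type} (I : Interp U) (s : ℕ → U) : Tm → U
  | Tm.var i => s i
  | Tm.fn k n ts => I.fn k n (fun j => (ts j).val I s)

/-- the Gödel implication -/
noncomputable def gimp (a b : ℝ) : ℝ := if a ≤ b then 1 else b

/-- truth value of a formula under the assignment `s`; the quantifiers are the infimum and the
supremum over the domain. -/
noncomputable def Fm.val {U : Type} (I : Interp U) : Fm → (ℕ → U) → ℝ
  | Fm.bot, _ => 0
  | Fm.atom k n ts, s => I.pred k n (fun j => (ts j).val I s)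
  | Fm.and A B, s => min (A.val I s) (B.val I s)
  | Fm.or A B, s => max (A.val I s) (B.val I s)
  | Fm.imp A B, s => gimp (A.val I s) (B.val I s)
  | Fm.all i A, s => ⨅ u : U, A.val I (Function.update s i u)
  | Fm.ex i A, s => ⨆ u : U, A.val I (Function.update s i u)

/-- Gödel sets: closed subsets of `[0,1]` containing `0` and `1`. -/
def IsGodelSet (V : Set ℝ) : Prop :=
  IsClosed V ∧ V ⊆ Set.Icc 0 1 ∧ (0 : ℝ) ∈ V ∧ (1 : ℝ) ∈ V

/-- `F` is valid in the Gödel logic `G_V`: it has value `1` under every interpretation with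
atomic values in `V`, over every nonempty domain, and every assignment. -/
def Valid (V : Set ℝ) (F : Fm) : Prop :=
  ∀ (U : Type) [Nonempty U] (I : Interp U), (∀ k n x, I.pred k n x ∈ V) →
    ∀ s : ℕ → U, F.val I s = 1

/-- quantifier-free formulas -/
inductive QF : Fm → Prop
  | bot : QF Fm.bot
  | atom (k n : ℕ) (ts : Fin n → Tm) : QF (Fm.atom k n ts)
  | and {A B : Fm} : QF A → QF B → QF (Fm.and A B)
  | or {A B : Fm} : QF A → QF B → QF (Fm.or A B)
  | imp {A B : Fm} : QF A → QF B → QF (Fm.imp A B)

/-- prenex formulas: a block of quantifiers in front of a quantifier-free formula -/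
inductive Prenex : Fm → Prop
  | qf {A : Fm} : QF A → Prenex A
  | all (i : ℕ) {A : Fm} : Prenex A → Prenex (Fm.all i A)
  | ex (i : ℕ) {A : Fm} : Prenex A → Prenex (Fm.ex i A)

/-- Gödel numbers of terms -/
def Tm.code : Tm → ℕ
  | Tm.var i => 2 * i
  | Tm.fn k n ts => 2 * Nat.pair k (Encodable.encode (List.ofFn fun j : Fin n => (ts j).code)) + 1

/-- Gödel numbers of formulas (a bijection between formulas and natural numbers) -/
def Fm.code : Fm → ℕ
  | Fm.bot => 0
  | Fm.atom k n ts =>
      6 * Nat.pair k (Encodable.encode (List.ofFn fun j : Fin n => (ts j).code)) + 1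
  | Fm.and A B => 6 * Nat.pair A.code B.code + 2
  | Fm.or A B => 6 * Nat.pair A.code B.code + 3
  | Fm.imp A B => 6 * Nat.pair A.code B.code + 4
  | Fm.all i A => 6 * Nat.pair i A.code + 5
  | Fm.ex i A => 6 * Nat.pair i A.code + 6

/-- `G_V` admits effective validity-equivalent prenex normal forms: there is a recursive map
(on Gödel numbers) sending each formula `F` to a prenex formula `F'` such that `F` is valid in
`G_V` iff `F'` is. -/
def HasPrenexForms (V : Set ℝ) : Prop :=
  ∃ g : ℕ → ℕ, Computable g ∧ ∀ F : Fm, ∃ F' : Fm,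
    Prenex F' ∧ g F.code = F'.code ∧ (Valid V F ↔ Valid V F')

/-- The levels `Σ⁰ₙ` of the arithmetical hierarchy: `Σ⁰₀` consists of the recursive sets, and
`A` is `Σ⁰ₙ₊₁` iff `x ∈ A ↔ ∃ y, ⟨x,y⟩ ∉ B` for some `Σ⁰ₙ` set `B`. -/
def SigmaSet : ℕ → Set ℕ → Prop
  | 0, A => ComputablePred (fun x => x ∈ A)
  | n + 1, A => ∃ B : Set ℕ, SigmaSet n B ∧ ∀ x, x ∈ A ↔ ∃ y, Nat.pair x y ∉ B

/-- `G_V` is arithmetical: the set of Gödel numbers of its valid formulas is `Σ⁰ₙ` for some `n`. -/
def IsArithmetical (V : Set ℝ) : Prop :=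
  ∃ n, SigmaSet n {m | ∃ F : Fm, Valid V F ∧ F.code = m}

/-- The Gödel set `{0} ∪ {1/n : n ≥ 1}` of the logic `G_↓`. -/
def Vdown : Set ℝ := {x | x = 0 ∨ ∃ n : ℕ, x = 1 / ((n : ℝ) + 1)}

end Pool.Agent.Lib.MP_80950a_lc
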