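import Pool.Agent.Lib.MP_80950a_lc.Arith

/-!
Normal form by a computable transition function, and encoding of codes.
-/

set_option autoImplicit false

namespace Pool.Agent.Lib.MP_80950a_lc

open Turing.ToPartrec (Code)

/-- the sequence of states -/
def run (G : ℕ → ℕ → ℕ) (f : ℕ → ℕ) (e : ℕ) : ℕ → ℕ
  | 0 => e
  | m + 1 => G (run G f e m) (f m)

theorem code_of_computable₂ {G : ℕ → ℕ → ℕ} (hG : Computable₂ G) :
    ∃ c : Code, ∀ e k, c.eval [e, k] = Part.some [G e k] := by
  have h1 : Partrec₂ fun e k : ℕ => Part.some (G e k) := hG.partrec₂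
  obtain ⟨c, hc⟩ := Turing.ToPartrec.Code.exists_code (Nat.Partrec'.part_iff₂.2 h1)
  refine ⟨c, fun e k => ?_⟩
  have h2 := hc (e ::ᵥ k ::ᵥ List.Vector.nil)
  simp only [List.Vector.head_cons, List.Vector.tail_cons] at h2
  have h3 : (e ::ᵥ k ::ᵥ List.Vector.nil : List.Vector ℕ 2).1 = [e, k] := rfl
  rw [h3] at h2
  rw [h2]
  simp

theorem form_state {A : Set ℕ} (h : Form A) :
    ∃ (c : Code) (G : ℕ → ℕ → ℕ), (∀ e k, c.eval [e, k] = Part.some [G e k]) ∧
      ∀ x, x ∈ A ↔ ∃ f, ∀ m, run G f (Nat.pair x 0 + 1) m ≠ 0 := by
  obtain ⟨T, hT, hA⟩ := h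
  set G : ℕ → ℕ → ℕ := fun e k =>
    cond (T ((Nat.unpair (e - 1)).1, Denumerable.ofNat (List ℕ) (Nat.unpair (e - 1)).2)) 0
      (Nat.pair (Nat.unpair (e - 1)).1
        (Encodable.encode (Denumerable.ofNat (List ℕ) (Nat.unpair (e - 1)).2 ++ [k])) + 1)
    with hGdef
  have hG : Computable₂ G := by
    have h1 : Primrec fun p : ℕ × ℕ => (Nat.unpair (p.1 - 1)).1 :=
      Primrec.fst.comp (Primrec.unpair.comp (Primrec.nat_sub.comp Primrec.fst (Primrec.const 1)))
    have h2 : Primrec fun p : ℕ × ℕ => Denumerable.ofNat (List ℕ) (Nat.unpair (p.1 - 1)).2 :=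
      (Primrec.ofNat (List ℕ)).comp (Primrec.snd.comp
        (Primrec.unpair.comp (Primrec.nat_sub.comp Primrec.fst (Primrec.const 1))))
    refine Computable.cond (hT.comp (Primrec.pair h1 h2).to_comp) (Computable.const 0) ?_
    apply Primrec.to_comp
    exact Primrec.succ.comp (Primrec₂.natPair.comp h1
      (Primrec.encode.comp (Primrec.list_concat.comp h2 Primrec.snd)))
  obtain ⟨c, hc⟩ := code_of_computable₂ hG
  refine ⟨c, G, hc, fun x => ?_⟩
  rw [hA]
  apply exists_congr
  intro f
  have key : ∀ m, (∀ j < m, T (x, (List.range j).map f) = false) →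
      run G f (Nat.pair x 0 + 1) m = Nat.pair x (Encodable.encode ((List.range m).map f)) + 1 := by
    intro m
    induction m with
    | zero =>
      intro _
      simp [run]
    | succ m ih =>
      intro h
      have h1 := ih fun j hj => h j (by omega)
      rw [run, h1, hGdef]
      simp only [Nat.add_sub_cancel, Nat.unpair_pair, Denumerable.ofNat_encode]
      rw [h m (by omega), cond_false, List.range_succ, List.map_append]
      rfl
  constructor
  · intro h m
    rw [key m fun j _ => h j]
    omega
  · intro h m
    induction m using Nat.strong_induction_on with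
    | _ m ih =>
      have h1 := key m ih
      have h2 := h (m + 1)
      rw [run, h1, hGdef] at h2
      simp only [Nat.add_sub_cancel, Nat.unpair_pair, Denumerable.ofNat_encode] at h2
      cases hTm : T (x, (List.range m).map f) with
      | false => rfl
      | true =>
        rw [hTm, cond_true] at h2
        exact absurd rfl h2

/-- numbering of codes -/
def encC : Code → ℕ
  | .zero' => 0
  | .succ => 1
  | .tail => 2
  | .cons f g => 4 * Nat.pair (encC f) (encC g) + 3
  | .comp f g => 4 * Nat.pair (encC f) (encC g) + 4
  | .case f g => 4 * Nat.pair (encC f) (encC g) + 5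
  | .fix f => 4 * encC f + 6

theorem encC_injective : Function.Injective encC := by
  intro c
  induction c with
  | zero' => intro c' h; cases c' <;> simp only [encC] at h <;> first | rfl | omega
  | succ => intro c' h; cases c' <;> simp only [encC] at h <;> first | rfl | omega
  | tail => intro c' h; cases c' <;> simp only [encC] at h <;> first | rfl | omega
  | cons f g ihf ihg =>
    intro c' h
    cases c' with
    | cons f' g' =>
      simp only [encC] at h
      obtain ⟨h1, h2⟩ := Nat.pair_eq_pair.1
        (show Nat.pair (encC f) (encC g) = Nat.pair (encC f') (encC g') by omega)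
      rw [ihf h1, ihg h2]
    | _ => simp only [encC] at h; omega
  | comp f g ihf ihg =>
    intro c' h
    cases c' with
    | comp f' g' =>
      simp only [encC] at h
      obtain ⟨h1, h2⟩ := Nat.pair_eq_pair.1
        (show Nat.pair (encC f) (encC g) = Nat.pair (encC f') (encC g') by omega)
      rw [ihf h1, ihg h2]
    | _ => simp only [encC] at h; omega
  | case f g ihf ihg =>
    intro c' h
    cases c' with
    | case f' g' =>
      simp only [encC] at h
      obtain ⟨h1, h2⟩ := Nat.pair_eq_pair.1
        (show Nat.pair (encC f) (encC g) = Nat.pair (encC f') (encC g') by omega)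
      rw [ihf h1, ihg h2]
    | _ => simp only [encC] at h; omega
  | fix f ihf =>
    intro c' h
    cases c' with
    | fix f' =>
      simp only [encC] at h
      rw [ihf (show encC f = encC f' by omega)]
    | _ => simp only [encC] at h; omega

end Pool.Agent.Lib.MP_80950a_lc
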