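import Pool.Agent.Lib.MP_80950a_lc.Val
import Pool.Agent.Lib.MP_80950a_lc.State

/-!
Clauses describing computations.
-/

set_option autoImplicit false
set_option linter.unusedSectionVars false

namespace Pool.Agent.Lib.MP_80950a_lc

open Turing.ToPartrec (Code)

def qZ : Tm := Tm.fn 0 0 (fun _ => Tm.var 0)
def qN : Tm := Tm.fn 1 0 (fun _ => Tm.var 0)
def qS (t : Tm) : Tm := Tm.fn 0 1 (fun _ => t)
def qK (t u : Tm) : Tm := Tm.fn 0 2 (fun j => if (j : ℕ) = 0 then t else u)
def neg (A : Fm) : Fm := Fm.imp A Fm.bot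
/-- `Y(t)` -/
def pY (t : Tm) : Fm := Fm.atom 0 1 (fun _ => t)
/-- `X(t)` -/
def pX (t : Tm) : Fm := Fm.atom 1 1 (fun _ => t)
/-- binary atoms -/
def p2 (p : ℕ) (t u : Tm) : Fm := Fm.atom p 2 (fun j => if (j : ℕ) = 0 then t else u)

/-- the clause: if all of `bs` are positive, then some of `hs` is positive -/
def cl (bs hs : List Fm) : Fm :=
  bs.foldr (fun b acc => Fm.and (neg (neg b)) acc)
    (hs.foldr (fun h acc => Fm.and (neg h) acc) (neg Fm.bot))

section
variable {U : Type} (I : Interp U)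

def vZ : U := I.fn 0 0 Fin.elim0
def vN : U := I.fn 1 0 Fin.elim0
def vS (a : U) : U := I.fn 0 1 (fun _ => a)
def vK (a b : U) : U := I.fn 0 2 (fun j => if (j : ℕ) = 0 then a else b)
def vY (a : U) : ℝ := I.pred 0 1 (fun _ => a)
def vX (a : U) : ℝ := I.pred 1 1 (fun _ => a)
def v2 (p : ℕ) (a b : U) : ℝ := I.pred p 2 (fun j => if (j : ℕ) = 0 then a else b)

variable (s : ℕ → U)

theorem qZ_val : qZ.val I s = vZ I := by
  unfold qZ vZ
  simp only [Tm.val]
  congr 1
  funext j
  exact j.elim0

theorem qN_val : qN.val I s = vN I := by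
  unfold qN vN
  simp only [Tm.val]
  congr 1
  funext j
  exact j.elim0

theorem qS_val (t : Tm) : (qS t).val I s = vS I (t.val I s) := rfl

theorem qK_val (t u : Tm) : (qK t u).val I s = vK I (t.val I s) (u.val I s) := by
  unfold qK vK
  simp only [Tm.val]
  congr 1
  funext j
  split_ifs <;> rfl

theorem pY_val (t : Tm) : (pY t).val I s = vY I (t.val I s) := rfl

theorem pX_val (t : Tm) : (pX t).val I s = vX I (t.val I s) := rfl

theorem p2_val (p : ℕ) (t u : Tm) : (p2 p t u).val I s = v2 I p (t.val I s) (u.val I s) := by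
  unfold p2 v2
  simp only [Fm.val]
  congr 1
  funext j
  split_ifs <;> rfl

end

section
variable {U : Type} [Nonempty U] {I : Interp U} (hI : Good I)

theorem neg_lt_one (hI : Good I) (A : Fm) (s : ℕ → U) : (neg A).val I s < 1 ↔ 0 < A.val I s := by
  have h1 : (neg A).val I s = gimp (A.val I s) 0 := rfl
  rw [h1, gimp_lt_one (val_le_one hI A s)]

theorem neg_neg_lt_one (hI : Good I) (A : Fm) (s : ℕ → U) :
    (neg (neg A)).val I s < 1 ↔ ¬ 0 < A.val I s := by
  rw [neg_lt_one hI, ← neg_lt_one hI A s]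
  have h1 : (neg A).val I s = gimp (A.val I s) 0 := rfl
  rw [h1]
  unfold gimp
  split_ifs with h
  · simp
  · simp

theorem cl_lt_one (hI : Good I) (bs hs : List Fm) (s : ℕ → U) :
    (cl bs hs).val I s < 1 ↔ ((∀ b ∈ bs, 0 < b.val I s) → ∃ h ∈ hs, 0 < h.val I s) := by
  unfold cl
  induction bs with
  | nil =>
    simp only [List.foldr_nil, List.not_mem_nil, false_imp_iff, implies_true, true_imp_iff]
    induction hs with
    | nil =>
      simp [neg, Fm.val, gimp]
    | cons h hs ih =>
      simp only [List.foldr_cons, Fm.val, min_lt_iff, List.mem_cons, exists_eq_or_imp]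
      rw [ih, neg_lt_one hI]
  | cons b bs ih =>
    simp only [List.foldr_cons, Fm.val, min_lt_iff, List.mem_cons, forall_eq_or_imp]
    rw [ih, neg_neg_lt_one hI]
    tauto

end

theorem qf_neg {A : Fm} (h : QF A) : QF (neg A) := QF.imp h QF.bot

theorem qf_cl {bs hs : List Fm} (hb : ∀ b ∈ bs, QF b) (hh : ∀ b ∈ hs, QF b) : QF (cl bs hs) := by
  unfold cl
  induction bs with
  | nil =>
    simp only [List.foldr_nil]
    induction hs with
    | nil => exact qf_neg QF.bot
    | cons h hs ih =>
      exact QF.and (qf_neg (hh h (by simp))) (ih fun b hb => hh b (by simp [hb]))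
  | cons b bs ih =>
    exact QF.and (qf_neg (qf_neg (hb b (by simp)))) (ih fun c hc => hb c (by simp [hc]))

/-- variables -/
def x0 : Tm := Tm.var 0
def x1 : Tm := Tm.var 1
def x2 : Tm := Tm.var 2
def x3 : Tm := Tm.var 3

/-- `c` sends `t` to `u` -/
def pE (c : Code) (t u : Tm) : Fm := p2 (3 + encC c) t u

/-- clauses for the evaluation of codes -/
def clC : Code → List Fm
  | .zero' => [cl [] [pE .zero' x0 (qK qZ x0)]]
  | .succ => [cl [] [pE .succ qN (qK (qS qZ) qN)], cl [] [pE .succ (qK x0 x1) (qK (qS x0) qN)]]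
  | .tail => [cl [] [pE .tail qN qN], cl [] [pE .tail (qK x0 x1) x1]]
  | .cons f g =>
      cl [pE f x0 qN, pE g x0 x1] [pE (.cons f g) x0 (qK qZ x1)] ::
      cl [pE f x0 (qK x2 x3), pE g x0 x1] [pE (.cons f g) x0 (qK x2 x1)] ::
      (clC f ++ clC g)
  | .comp f g =>
      cl [pE g x0 x1, pE f x1 x2] [pE (.comp f g) x0 x2] ::
      (clC f ++ clC g)
  | .case f g =>
      cl [pE f qN x0] [pE (.case f g) qN x0] ::
      cl [pE f x1 x0] [pE (.case f g) (qK qZ x1) x0] ::
      cl [pE g (qK x2 x1) x0] [pE (.case f g) (qK (qS x2) x1) x0] ::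
      (clC f ++ clC g)
  | .fix f =>
      cl [pE f x0 qN] [pE (.fix f) x0 qN] ::
      cl [pE f x0 (qK qZ x1)] [pE (.fix f) x0 x1] ::
      cl [pE f x0 (qK (qS x3) x2), pE (.fix f) x2 x1] [pE (.fix f) x0 x1] ::
      clC f

theorem qf_clC (c : Code) : ∀ A ∈ clC c, QF A := by
  have hE : ∀ c t u, QF (pE c t u) := fun c t u => QF.atom _ _ _
  induction c with
  | zero' =>
    intro A hA
    simp only [clC, List.mem_singleton] at hA
    subst hA
    exact qf_cl (by simp) (by simp [hE])
  | succ =>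
    intro A hA
    simp only [clC, List.mem_cons, List.not_mem_nil, or_false] at hA
    rcases hA with rfl | rfl <;> exact qf_cl (by simp) (by simp [hE])
  | tail =>
    intro A hA
    simp only [clC, List.mem_cons, List.not_mem_nil, or_false] at hA
    rcases hA with rfl | rfl <;> exact qf_cl (by simp) (by simp [hE])
  | cons f g ihf ihg =>
    intro A hA
    simp only [clC, List.mem_cons, List.mem_append] at hA
    rcases hA with rfl | rfl | h | h
    · exact qf_cl (by simp [hE]) (by simp [hE])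
    · exact qf_cl (by simp [hE]) (by simp [hE])
    · exact ihf A h
    · exact ihg A h
  | comp f g ihf ihg =>
    intro A hA
    simp only [clC, List.mem_cons, List.mem_append] at hA
    rcases hA with rfl | h | h
    · exact qf_cl (by simp [hE]) (by simp [hE])
    · exact ihf A h
    · exact ihg A h
  | case f g ihf ihg =>
    intro A hA
    simp only [clC, List.mem_cons, List.mem_append] at hA
    rcases hA with rfl | rfl | rfl | h | h
    · exact qf_cl (by simp [hE]) (by simp [hE])
    · exact qf_cl (by simp [hE]) (by simp [hE])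
    · exact qf_cl (by simp [hE]) (by simp [hE])
    · exact ihf A h
    · exact ihg A h
  | fix f ihf =>
    intro A hA
    simp only [clC, List.mem_cons] at hA
    rcases hA with rfl | rfl | rfl | h
    · exact qf_cl (by simp [hE]) (by simp [hE])
    · exact qf_cl (by simp [hE]) (by simp [hE])
    · exact qf_cl (by simp [hE]) (by simp [hE])
    · exact ihf A h

/-- the other clauses; `c` computes the transition function -/
def clR (c : Code) : List Fm :=
  Fm.imp (pY x0) (pY (qS x0)) ::
  neg (pX x0) ::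
  Fm.and (Fm.imp (pY x1) (pX x0)) (neg (p2 0 x0 x1)) ::
  cl [p2 0 x0 qZ] [p2 1 x0 qZ] ::
  cl [p2 0 x0 (qS x1)] [p2 0 x0 x1, p2 1 x0 (qS x1)] ::
  cl [p2 2 x0 x1, p2 1 x0 x2, pE c (qK x1 (qK x2 qN)) (qK x3 qN)] [p2 2 (qS x0) x3] ::
  cl [p2 2 x0 qZ] [] ::
  clC c

theorem qf_clR (c : Code) : ∀ A ∈ clR c, QF A := by
  have hE : ∀ c t u, QF (pE c t u) := fun c t u => QF.atom _ _ _
  have h2 : ∀ p t u, QF (p2 p t u) := fun c t u => QF.atom _ _ _
  have hY : ∀ t, QF (pY t) := fun t => QF.atom _ _ _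
  have hX : ∀ t, QF (pX t) := fun t => QF.atom _ _ _
  intro A hA
  simp only [clR, List.mem_cons] at hA
  rcases hA with rfl | rfl | rfl | rfl | rfl | rfl | rfl | h
  · exact QF.imp (hY _) (hY _)
  · exact qf_neg (hX _)
  · exact QF.and (QF.imp (hY _) (hX _)) (qf_neg (h2 _ _ _))
  · exact qf_cl (by simp [h2]) (by simp [h2])
  · exact qf_cl (by simp [h2]) (by simp [h2])
  · exact qf_cl (by simp [hE, h2]) (by simp [h2])
  · exact qf_cl (by simp [h2]) (by simp [h2])
  · exact qf_clC c A h

/-- numerals -/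
def numT : ℕ → Tm
  | 0 => qZ
  | n + 1 => qS (numT n)

/-- the prenex formula attached to the transition code `c` and the initial state `e` -/
def hornF (c : Code) (e : ℕ) : Fm :=
  exs (List.range 4) (ors (cl [] [p2 2 qZ (numT e)] :: clR c))

end Pool.Agent.Lib.MP_80950a_lc
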