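import Pool.Agent.Lib.MP_80950a_lc.Star

/-!
A countermodel of the prenex form yields a countermodel of the formula.
-/

set_option autoImplicit false
set_option linter.unusedSectionVars false

namespace Pool.Agent.Lib.MP_80950a_lc

/-- collapse of the values above `c` -/
noncomputable def hc (c v : ℝ) : ℝ := if v < c then v else 1

theorem hc_mem (c : ℝ) {v : ℝ} (h : v ∈ Vdown) : hc c v ∈ Vdown := by
  unfold hc
  split_ifs
  · exact h
  · exact one_mem_vdown

theorem hc_mono {c a b : ℝ} (ha : a ≤ 1) (h : a ≤ b) : hc c a ≤ hc c b := by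
  unfold hc
  split_ifs with h1 h2 h2
  · exact h
  · exact ha
  · exact absurd (lt_of_le_of_lt h h2) h1
  · exact le_refl _

theorem hc_min {c a b : ℝ} (ha : a ≤ 1) (hb : b ≤ 1) :
    hc c (min a b) = min (hc c a) (hc c b) := by
  rcases le_total a b with h | h
  · rw [min_eq_left h, min_eq_left (hc_mono ha h)]
  · rw [min_eq_right h, min_eq_right (hc_mono hb h)]

theorem hc_max {c a b : ℝ} (ha : a ≤ 1) (hb : b ≤ 1) :
    hc c (max a b) = max (hc c a) (hc c b) := by
  rcases le_total a b with h | h
  · rw [max_eq_right h, max_eq_right (hc_mono ha h)]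
  · rw [max_eq_left h, max_eq_left (hc_mono hb h)]

theorem vdown_lt_step {x y : ℝ} {m : ℕ} (hx : x ∈ Vdown) (hxy : x < y)
    (hy : y ≤ 1 / ((m : ℝ) + 1)) : x ≤ 1 / (((m + 1 : ℕ) : ℝ) + 1) := by
  rcases hx with rfl | ⟨k, rfl⟩
  · positivity
  · rw [inv_le_inv_iff]
    have h : 1 / ((k : ℝ) + 1) < 1 / ((m : ℝ) + 1) := lt_of_lt_of_le hxy hy
    by_contra hc
    have h2 : k ≤ m := by omega
    exact absurd ((inv_le_inv_iff m k).2 h2) (not_le.2 h)

section
variable {U : Type} [Nonempty U] {I : Interp U}

/-- the value of `R_k` -/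
def rv (I : Interp U) (k0 k : ℕ) (s : ℕ → U) : ℝ :=
  I.pred (k0 + 1 + k) (k0 + 2) (fun j => s j)

theorem rv_congr (k0 k : ℕ) {s s' : ℕ → U} (h : ∀ j, j < k0 + 2 → s j = s' j) :
    rv I k0 k s = rv I k0 k s' := by
  unfold rv
  congr 1
  funext j
  exact h j j.2

theorem aR_val (k0 k : ℕ) (s : ℕ → U) : (aR k0 k).val I s = rv I k0 k s := rfl

theorem aRs_val (k0 k i : ℕ) (t : Tm) (s : ℕ → U) :
    (aRs k0 k i t).val I s = rv I k0 k (Function.update s i (t.val I s)) := by
  unfold aRs rv
  simp only [Fm.val]
  congr 1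
  funext j
  split_ifs with h
  · rw [h, Function.update_self]
  · rw [Function.update_of_ne h]
    rfl

/-- the value of `C` -/
def cv (I : Interp U) (k0 : ℕ) : ℝ := I.pred (k0 + 1) 0 Fin.elim0

theorem aC_val (k0 : ℕ) (s : ℕ → U) : (aC k0).val I s = cv I k0 := by
  unfold aC cv
  simp only [Fm.val]
  congr 1
  funext j
  exact j.elim0

/-- the value of `Y` -/
def yv (I : Interp U) (k0 : ℕ) (u : U) : ℝ := I.pred (k0 + 1) 1 (fun _ => u)

theorem aY_val (k0 : ℕ) (t : Tm) (s : ℕ → U) : (aY k0 t).val I s = yv I k0 (t.val I s) := rfl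

/-- the collapsed interpretation -/
noncomputable def Icol (I : Interp U) (c : ℝ) : Interp U where
  fn := I.fn
  pred := fun k n x => hc c (I.pred k n x)

theorem tm_val_col (c : ℝ) (t : Tm) (s : ℕ → U) : t.val (Icol I c) s = t.val I s := by
  induction t with
  | var i => rfl
  | fn k n ts ih =>
    simp only [Tm.val]
    rw [funext ih]
    rfl

theorem good_col (hI : Good I) (c : ℝ) : Good (Icol I c) := fun k n x => hc_mem c (hI k n x)

/-- the facts extracted from the constraints -/
structure Facts (I : Interp U) (k0 : ℕ) (s : ℕ → U) : Prop where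
  good : Good I
  lt : ∀ s' : ℕ → U, (∀ j, k0 + 3 ≤ j → s' j = s j) → ∀ A ∈ clauses k0, A.val I s' < 1

variable {k0 : ℕ} {s : ℕ → U}

theorem Facts.c_lt (h : Facts I k0 s) : cv I k0 < 1 := by
  have := h.lt s (fun _ _ => rfl) (aC k0) (by simp [clauses])
  rwa [aC_val] at this

theorem Facts.cpos (h : Facts I k0 s) : 0 < cv I k0 := by
  have h1 := h.lt s (fun _ _ => rfl) (Fm.imp (aC k0) (aRc k0)) (by simp [clauses])
  have h2 : (Fm.imp (aC k0) (aRc k0)).val I s = gimp (cv I k0) ((aRc k0).val I s) := by
    simp only [Fm.val, aC_val]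
  rw [h2, gimp_lt_one h.c_lt.le] at h1
  exact lt_of_le_of_lt (vdown_nonneg (val_mem h.good _ _)) h1

theorem Facts.goal (h : Facts I k0 s) :
    rv I k0 k0 (fun j => if j < k0 + 2 then I.fn (k0 + 1 + j) 0 Fin.elim0 else s j) <
      cv I k0 := by
  have h1 := h.lt s (fun _ _ => rfl) (Fm.imp (aC k0) (aRc k0)) (by simp [clauses])
  have h2 : (Fm.imp (aC k0) (aRc k0)).val I s = gimp (cv I k0)
      (rv I k0 k0 (fun j => if j < k0 + 2 then I.fn (k0 + 1 + j) 0 Fin.elim0 else s j)) := by
    simp only [Fm.val, aC_val, aRc, rv]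
    congr 1
    congr 1
    funext j
    simp only [Tm.val, Fin.is_lt, if_true]
    congr 1
    funext i
    exact i.elim0
  rwa [h2, gimp_lt_one h.c_lt.le] at h1

theorem Facts.y_le (h : Facts I k0 s) (u : U) : yv I k0 u ≤ cv I k0 := by
  have h1 := h.lt (Function.update s (k0 + 2) u)
    (fun j hj => Function.update_of_ne (by omega) _ _)
    (leq k0 (aY k0 (tz k0)) (aC k0)) (by simp [clauses])
  rw [leq_lt_one h.good, aC_val, aY_val] at h1
  have h2 : (tz k0).val I (Function.update s (k0 + 2) u) = u := by
    simp [tz, Tm.val]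
  rw [h2] at h1
  rcases h1 with h1 | h1
  · exact h1.1
  · exact absurd h1 (lt_irrefl _)

theorem Facts.y_step (h : Facts I k0 s) (u : U) :
    yv I k0 (I.fn (k0 + 1) 1 (fun _ => u)) < yv I k0 u := by
  have h1 := h.lt (Function.update s (k0 + 2) u)
    (fun j hj => Function.update_of_ne (by omega) _ _)
    (Fm.imp (aY k0 (tz k0)) (aY k0 (tS k0 (tz k0)))) (by simp [clauses])
  have h2 : (tz k0).val I (Function.update s (k0 + 2) u) = u := by
    simp [tz, Tm.val]
  have h3 : (Fm.imp (aY k0 (tz k0)) (aY k0 (tS k0 (tz k0)))).val I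
      (Function.update s (k0 + 2) u) =
      gimp (yv I k0 u) (yv I k0 (I.fn (k0 + 1) 1 (fun _ => u))) := by
    simp only [Fm.val, aY_val, tS, Tm.val, h2]
  rwa [h3, gimp_lt_one ((h.y_le u).trans h.c_lt.le)] at h1

theorem Facts.y_small (h : Facts I k0 s) (m : ℕ) : ∃ u : U, yv I k0 u ≤ 1 / ((m : ℝ) + 1) := by
  induction m with
  | zero =>
    obtain ⟨u⟩ := ‹Nonempty U›
    refine ⟨u, ?_⟩
    have := (h.y_le u).trans h.c_lt.le
    simpa using this
  | succ m ih =>
    obtain ⟨u, hu⟩ := ih
    exact ⟨_, vdown_lt_step (h.good _ _ _) (h.y_step u) hu⟩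

theorem Facts.cl (h : Facts I k0 s) {k : ℕ} (hk : k ≤ k0) {s' : ℕ → U}
    (hs' : ∀ j, k0 + 3 ≤ j → s' j = s j) :
    rv I k0 k s' ≤ cv I k0 ∧ (clause k0 k).val I s' < 1 := by
  have h1 := h.lt s' hs' (Fm.or (leq k0 (aR k0 k) (aC k0)) (clause k0 k)) (by
    simp only [clauses, List.mem_cons, List.mem_map, List.mem_range]
    right; right; right; right
    exact ⟨k, by omega, rfl⟩)
  simp only [Fm.val, max_lt_iff] at h1
  refine ⟨?_, h1.2⟩
  have h2 := h1.1
  rw [leq_lt_one h.good, aC_val, aR_val] at h2
  rcases h2 with h2 | h2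
  · exact h2.1
  · exact absurd h2 (lt_irrefl _)

theorem Facts.eqv_iff (h : Facts I k0 s) {k : ℕ} (hk : k ≤ k0) {s' : ℕ → U}
    (hs' : ∀ j, k0 + 3 ≤ j → s' j = s j) {B : Fm} :
    (eqv k0 (aR k0 k) B).val I s' < 1 ↔ rv I k0 k s' = B.val I s' := by
  rw [eqv_lt_one h.good, aR_val]
  · rw [aR_val, aC_val]
    exact (h.cl hk hs').1
  · rw [aC_val]
    exact h.c_lt

theorem Facts.main (h : Facts I k0 s) (G : Fm) : G.code ≤ k0 →
    ∀ s' : ℕ → U, (∀ j, k0 + 3 ≤ j → s' j = s j) →
      hc (cv I k0) (rv I k0 G.code s') = G.val (Icol I (cv I k0)) s' := by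
  have hr1 : ∀ k s', rv I k0 k s' ≤ 1 := fun k s' => vdown_le_one (h.good _ _ _)
  induction G with
  | bot =>
    intro hG s' hs'
    have h1 := (h.cl hG hs').2
    rw [clause, if_pos (show Fm.bot.code = 0 from rfl), h.eqv_iff hG hs'] at h1
    rw [h1]
    simp only [Fm.val, hc]
    rw [if_pos h.cpos]
  | atom k n ts =>
    intro hG s' hs'
    have h1 := (h.cl hG hs').2
    have e0 : (Fm.atom k n ts).code ≠ 0 := by simp only [Fm.code]; omega
    have e1 : ((Fm.atom k n ts).code - 1) % 6 = 0 := by simp only [Fm.code]; omega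
    rw [clause, if_neg e0, if_pos e1, h.eqv_iff hG hs', Fm.ofCode_code] at h1
    rw [h1]
    simp only [Fm.val]
    rw [funext fun j => tm_val_col (I := I) (cv I k0) (ts j) s']
    rfl
  | and A B ihA ihB =>
    intro hG s' hs'
    have h1 := (h.cl hG hs').2
    have e0 : (Fm.and A B).code ≠ 0 := by simp only [Fm.code]; omega
    have e1 : ((Fm.and A B).code - 1) % 6 = 1 := by simp only [Fm.code]; omega
    have e2 : ((Fm.and A B).code - 1) / 6 = Nat.pair A.code B.code := by
      simp only [Fm.code]; omega
    have eA : A.code ≤ k0 := by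
      have := Nat.left_le_pair A.code B.code
      omega
    have eB : B.code ≤ k0 := by
      have := Nat.right_le_pair A.code B.code
      omega
    rw [clause, if_neg e0, if_neg (by omega), if_pos e1, h.eqv_iff hG hs', e2,
      Nat.unpair_pair] at h1
    rw [h1]
    simp only [Fm.val, aR_val]
    rw [hc_min (hr1 _ _) (hr1 _ _), ihA eA s' hs', ihB eB s' hs']
  | or A B ihA ihB =>
    intro hG s' hs'
    have h1 := (h.cl hG hs').2
    have e0 : (Fm.or A B).code ≠ 0 := by simp only [Fm.code]; omega
    have e1 : ((Fm.or A B).code - 1) % 6 = 2 := by simp only [Fm.code]; omega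
    have e2 : ((Fm.or A B).code - 1) / 6 = Nat.pair A.code B.code := by
      simp only [Fm.code]; omega
    have eA : A.code ≤ k0 := by
      have := Nat.left_le_pair A.code B.code
      omega
    have eB : B.code ≤ k0 := by
      have := Nat.right_le_pair A.code B.code
      omega
    rw [clause, if_neg e0, if_neg (by omega), if_neg (by omega), if_pos e1, h.eqv_iff hG hs', e2,
      Nat.unpair_pair] at h1
    rw [h1]
    simp only [Fm.val, aR_val]
    rw [hc_max (hr1 _ _) (hr1 _ _), ihA eA s' hs', ihB eB s' hs']
  | imp A B ihA ihB =>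
    intro hG s' hs'
    have h1 := (h.cl hG hs').2
    have e0 : (Fm.imp A B).code ≠ 0 := by simp only [Fm.code]; omega
    have e1 : ((Fm.imp A B).code - 1) % 6 = 3 := by simp only [Fm.code]; omega
    have e2 : ((Fm.imp A B).code - 1) / 6 = Nat.pair A.code B.code := by
      simp only [Fm.code]; omega
    have eA : A.code ≤ k0 := by
      have := Nat.left_le_pair A.code B.code
      omega
    have eB : B.code ≤ k0 := by
      have := Nat.right_le_pair A.code B.code
      omega
    rw [clause, if_neg e0, if_neg (by omega), if_neg (by omega), if_neg (by omega), if_pos e1,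
      h.eqv_iff hG hs', e2, Nat.unpair_pair] at h1
    rw [h1]
    simp only [Fm.val, aR_val, aC_val]
    rw [← ihA eA s' hs', ← ihB eB s' hs']
    have hA := (h.cl eA hs').1
    have hB := (h.cl eB hs').1
    by_cases hle : rv I k0 A.code s' ≤ rv I k0 B.code s'
    · rw [gimp, if_pos hle, min_eq_right h.c_lt.le, gimp, if_pos (hc_mono (hr1 _ _) hle)]
      simp [hc]
    · rw [gimp, if_neg hle, min_eq_left hB]
      push Not at hle
      have hBc : rv I k0 B.code s' < cv I k0 := lt_of_lt_of_le hle hA
      have e3 : hc (cv I k0) (rv I k0 B.code s') = rv I k0 B.code s' := by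
        rw [hc, if_pos hBc]
      have e4 : ¬ (hc (cv I k0) (rv I k0 A.code s') ≤ rv I k0 B.code s') := by
        rw [not_le, hc]
        split_ifs
        · exact hle
        · exact hBc.trans h.c_lt
      rw [e3, gimp, if_neg e4]
  | all i A ihA =>
    intro hG s' hs'
    have e0 : (Fm.all i A).code ≠ 0 := by simp only [Fm.code]; omega
    have e1 : ((Fm.all i A).code - 1) % 6 = 4 := by simp only [Fm.code]; omega
    have e2 : ((Fm.all i A).code - 1) / 6 = Nat.pair i A.code := by
      simp only [Fm.code]; omega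
    have eA : A.code ≤ k0 := by
      have := Nat.right_le_pair i A.code
      omega
    have ei : i ≤ k0 := by
      have := Nat.left_le_pair i A.code
      omega
    set k := (Fm.all i A).code with hk
    set f : U → ℝ := fun u => rv I k0 A.code (Function.update s' i u) with hf
    have hfV : ∀ u, f u ∈ Vdown := fun u => h.good _ _ _
    have hupd : ∀ u, ∀ j, k0 + 3 ≤ j → Function.update s' i u j = s j := by
      intro u j hj
      rw [Function.update_of_ne (by omega)]
      exact hs' j hj
    have hfc : ∀ u, f u ≤ cv I k0 := fun u => (h.cl eA (hupd u)).1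
    -- the constraint at `z = u`
    have key : ∀ u, rv I k0 k s' ≤ f u ∧
        (f (I.fn (k0 + 1 + k) (k0 + 2) fun j => s' j) ≤ rv I k0 k s' ∨
          ∃ w, f w ≤ yv I k0 u) := by
      intro u
      set s2 := Function.update s' (k0 + 2) u with hs2
      have hs2' : ∀ j, k0 + 3 ≤ j → s2 j = s j := by
        intro j hj
        rw [hs2, Function.update_of_ne (by omega)]
        exact hs' j hj
      have h1 := (h.cl hG hs2').2
      rw [clause, if_neg e0, if_neg (by omega), if_neg (by omega), if_neg (by omega),
        if_neg (by omega), if_pos e1, e2, Nat.unpair_pair] at h1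
      simp only [Fm.val, max_lt_iff, min_lt_iff] at h1
      rw [leq_lt_one h.good, leq_lt_one h.good, leq_lt_one h.good] at h1
      simp only [aRs_val, aR_val, aC_val, aY_val] at h1
      have hz : (tz k0).val I s2 = u := by simp [tz, Tm.val, hs2]
      have e3 : rv I k0 k s2 = rv I k0 k s' := by
        apply rv_congr
        intro j hj
        rw [hs2, Function.update_of_ne (by omega)]
      have e4 : ∀ w, rv I k0 A.code (Function.update s2 i w) = f w := by
        intro w
        apply rv_congr
        intro j hj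
        by_cases hji : j = i
        · rw [hji, Function.update_self, Function.update_self]
        · rw [Function.update_of_ne hji, Function.update_of_ne hji, hs2,
            Function.update_of_ne (by omega)]
      have e5 : (tf k0 k).val I s2 = I.fn (k0 + 1 + k) (k0 + 2) fun j => s' j := by
        simp only [tf, Tm.val]
        congr 1
        funext j
        have := j.2
        rw [hs2, Function.update_of_ne (by omega)]
      rw [hz, e3, e4, e4, e4, e5] at h1
      obtain ⟨h2, h3⟩ := h1
      constructor
      · rcases h2 with h2 | h2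
        · exact h2.1
        · exact absurd (hfc u) (not_le.2 h2)
      · rcases h3 with (h3 | h3) | (h3 | h3)
        · exact Or.inl h3.1
        · exact absurd (h.cl hG hs').1 (not_le.2 h3)
        · exact Or.inr ⟨_, h3.1⟩
        · exact absurd (h.y_le u) (not_le.2 h3)
    have hval : (Fm.all i A).val (Icol I (cv I k0)) s' = ⨅ u, hc (cv I k0) (f u) := by
      simp only [Fm.val]
      congr 1
      funext u
      rw [← ihA eA _ (hupd u)]
    rw [hval]
    by_cases hatt : f (I.fn (k0 + 1 + k) (k0 + 2) fun j => s' j) ≤ rv I k0 k s'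
    · set w := I.fn (k0 + 1 + k) (k0 + 2) fun j => s' j with hw
      have e6 : rv I k0 k s' = f w := le_antisymm (key w).1 hatt
      rw [iInf_eq_of_min (fun u => hc (cv I k0) (f u)) (u := w), e6]
      intro v
      apply hc_mono (vdown_le_one (hfV w))
      rw [← e6]
      exact (key v).1
    · have hy : ∀ u, ∃ w, f w ≤ yv I k0 u := fun u => (key u).2.resolve_left hatt
      have hzero : rv I k0 k s' = 0 := by
        apply le_antisymm
        · apply le_of_forall_pos_lt_add
          intro ε hε
          obtain ⟨t, ht⟩ := exists_nat_one_div_lt hε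
          obtain ⟨u, hu⟩ := h.y_small t
          obtain ⟨w, hw⟩ := hy u
          have := (key w).1
          linarith
        · exact vdown_nonneg (h.good _ _ _)
      rw [hzero, hc, if_pos h.cpos]
      symm
      apply iInf_eq_zero_of_small
      · intro u
        exact hc_mem _ (hfV u)
      · intro t
        obtain ⟨u, hu⟩ := h.y_small t
        obtain ⟨w, hw⟩ := hy (I.fn (k0 + 1) 1 (fun _ => u))
        refine ⟨w, ?_⟩
        have h1 := h.y_step u
        have h2 := h.y_le u
        rw [hc, if_pos (lt_of_le_of_lt hw (lt_of_lt_of_le h1 h2))]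
        linarith
  | ex i A ihA =>
    intro hG s' hs'
    have e0 : (Fm.ex i A).code ≠ 0 := by simp only [Fm.code]; omega
    have e1 : ((Fm.ex i A).code - 1) % 6 = 5 := by simp only [Fm.code]; omega
    have e2 : ((Fm.ex i A).code - 1) / 6 = Nat.pair i A.code := by
      simp only [Fm.code]; omega
    have eA : A.code ≤ k0 := by
      have := Nat.right_le_pair i A.code
      omega
    have ei : i ≤ k0 := by
      have := Nat.left_le_pair i A.code
      omega
    set k := (Fm.ex i A).code with hk
    set f : U → ℝ := fun u => rv I k0 A.code (Function.update s' i u) with hf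
    have hfV : ∀ u, f u ∈ Vdown := fun u => h.good _ _ _
    have hupd : ∀ u, ∀ j, k0 + 3 ≤ j → Function.update s' i u j = s j := by
      intro u j hj
      rw [Function.update_of_ne (by omega)]
      exact hs' j hj
    have hfc : ∀ u, f u ≤ cv I k0 := fun u => (h.cl eA (hupd u)).1
    have key : ∀ u, f u ≤ rv I k0 k s' ∧
        rv I k0 k s' ≤ f (I.fn (k0 + 1 + k) (k0 + 2) fun j => s' j) := by
      intro u
      set s2 := Function.update s' (k0 + 2) u with hs2
      have hs2' : ∀ j, k0 + 3 ≤ j → s2 j = s j := by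
        intro j hj
        rw [hs2, Function.update_of_ne (by omega)]
        exact hs' j hj
      have h1 := (h.cl hG hs2').2
      rw [clause, if_neg e0, if_neg (by omega), if_neg (by omega), if_neg (by omega),
        if_neg (by omega), if_neg (by omega), e2, Nat.unpair_pair] at h1
      simp only [Fm.val, max_lt_iff] at h1
      rw [leq_lt_one h.good, leq_lt_one h.good] at h1
      simp only [aRs_val, aR_val, aC_val] at h1
      have hz : (tz k0).val I s2 = u := by simp [tz, Tm.val, hs2]
      have e3 : rv I k0 k s2 = rv I k0 k s' := by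
        apply rv_congr
        intro j hj
        rw [hs2, Function.update_of_ne (by omega)]
      have e4 : ∀ w, rv I k0 A.code (Function.update s2 i w) = f w := by
        intro w
        apply rv_congr
        intro j hj
        by_cases hji : j = i
        · rw [hji, Function.update_self, Function.update_self]
        · rw [Function.update_of_ne hji, Function.update_of_ne hji, hs2,
            Function.update_of_ne (by omega)]
      have e5 : (tf k0 k).val I s2 = I.fn (k0 + 1 + k) (k0 + 2) fun j => s' j := by
        simp only [tf, Tm.val]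
        congr 1
        funext j
        have := j.2
        rw [hs2, Function.update_of_ne (by omega)]
      rw [hz, e3, e4, e4, e5] at h1
      obtain ⟨h2, h3⟩ := h1
      constructor
      · rcases h2 with h2 | h2
        · exact h2.1
        · exact absurd (h.cl hG hs').1 (not_le.2 h2)
      · rcases h3 with h3 | h3
        · exact h3.1
        · exact absurd (hfc _) (not_le.2 h3)
    have hval : (Fm.ex i A).val (Icol I (cv I k0)) s' = ⨆ u, hc (cv I k0) (f u) := by
      simp only [Fm.val]
      congr 1
      funext u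
      rw [← ihA eA _ (hupd u)]
    rw [hval]
    set w := I.fn (k0 + 1 + k) (k0 + 2) fun j => s' j with hw
    have e6 : rv I k0 k s' = f w := le_antisymm (key w).2 (key w).1
    rw [iSup_eq_of_max (fun u => hc (cv I k0) (f u)) (u := w), e6]
    intro v
    apply hc_mono (vdown_le_one (hfV v))
    rw [← e6]
    exact (key v).1

end

theorem not_valid_of_star {F : Fm} (h : ¬ Valid Vdown (star F.code)) : ¬ Valid Vdown F := by
  rw [not_valid_iff] at h ⊢
  obtain ⟨U, hU, I, hI, s, h⟩ := h
  have hF : Facts I F.code s := by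
    refine ⟨hI, ?_⟩
    intro s' hs'
    rw [star, exs_lt_one hI] at h
    exact (ors_lt_one _ _).1 (h s' fun j hj => hs' j (by simpa using hj))
  set s0 : ℕ → U := fun j => if j < F.code + 2 then I.fn (F.code + 1 + j) 0 Fin.elim0 else s j
    with hs0
  have hs0' : ∀ j, F.code + 3 ≤ j → s0 j = s j := by
    intro j hj
    rw [hs0]
    simp only
    rw [if_neg (by omega)]
  refine ⟨U, hU, Icol I (cv I F.code), good_col hI _, s0, ?_⟩
  rw [← hF.main F le_rfl s0 hs0']
  have := hF.goal
  rw [hc, if_pos this]
  exact this.trans hF.c_lt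

end Pool.Agent.Lib.MP_80950a_lc
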