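import Pool.Agent.Lib.MP_80950a_lc.Horn
import Pool.Agent.Lib.MP_80950a_lc.StarA

/-!
A countermodel of the prenex formula computes correctly.
-/

set_option autoImplicit false
set_option linter.unusedSectionVars false
set_option linter.unusedSimpArgs false

namespace Pool.Agent.Lib.MP_80950a_lc

open Turing.ToPartrec (Code)

/-- assignment -/
def asg {U : Type} (s : ℕ → U) (a b c d : U) : ℕ → U
  | 0 => a
  | 1 => b
  | 2 => c
  | 3 => d
  | n + 4 => s (n + 4)

theorem asg_ge {U : Type} (s : ℕ → U) (a b c d : U) : ∀ j, 4 ≤ j → asg s a b c d j = s j := by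
  intro j hj
  obtain ⟨k, rfl⟩ : ∃ k, j = k + 4 := ⟨j - 4, by omega⟩
  rfl

section
variable {U : Type} [Nonempty U] {I : Interp U} {s : ℕ → U} {L : List Fm}

/-- all instances of the formulas of `L` have values below `1` -/
structure HM (I : Interp U) (s : ℕ → U) (L : List Fm) : Prop where
  good : Good I
  lt : ∀ s' : ℕ → U, (∀ j, 4 ≤ j → s' j = s j) → ∀ A ∈ L, A.val I s' < 1

theorem HM.use (h : HM I s L) {bs hs : List Fm} (hc : cl bs hs ∈ L) (a b c d : U) :
    (∀ x ∈ bs, 0 < x.val I (asg s a b c d)) → ∃ x ∈ hs, 0 < x.val I (asg s a b c d) := by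
  have := h.lt _ (asg_ge s a b c d) _ hc
  rwa [cl_lt_one h.good] at this

theorem x0_val (a b c d : U) : x0.val I (asg s a b c d) = a := rfl
theorem x1_val (a b c d : U) : x1.val I (asg s a b c d) = b := rfl
theorem x2_val (a b c d : U) : x2.val I (asg s a b c d) = c := rfl
theorem x3_val (a b c d : U) : x3.val I (asg s a b c d) = d := rfl

/-- value of numerals -/
def vnum (I : Interp U) : ℕ → U
  | 0 => vZ I
  | n + 1 => vS I (vnum I n)

/-- value of lists -/
def vlst (I : Interp U) : List ℕ → U
  | [] => vN I
  | n :: l => vK I (vnum I n) (vlst I l)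

theorem numT_val (n : ℕ) (s : ℕ → U) : (numT n).val I s = vnum I n := by
  induction n with
  | zero => exact qZ_val I s
  | succ n ih =>
    simp only [numT, qS_val, ih, vnum]

theorem HM.sound (h : HM I s L) (c : Code) : (∀ A ∈ clC c, A ∈ L) →
    ∀ v w : List ℕ, w ∈ c.eval v → 0 < v2 I (3 + encC c) (vlst I v) (vlst I w) := by
  obtain ⟨u0⟩ := id ‹Nonempty U›
  induction c with
  | zero' =>
    intro hc v w hw
    have h1 := h.use (hc _ (by simp only [clC, List.mem_singleton]; rfl)) (vlst I v) u0 u0 u0
      (by simp)
    simp only [pE, List.mem_singleton, exists_eq_left, p2_val, x0_val, qK_val, qZ_val] at h1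
    simp only [Code.eval] at hw
    rw [Part.mem_some_iff.1 hw]
    exact h1
  | succ =>
    intro hc v w hw
    simp only [Code.eval] at hw
    rw [Part.mem_some_iff.1 hw]
    cases v with
    | nil =>
      have h1 := h.use (hc _ (by simp only [clC, List.mem_cons]; exact Or.inl rfl)) u0 u0 u0 u0
        (by simp)
      simp only [pE, List.mem_singleton, exists_eq_left, p2_val, qK_val, qZ_val, qN_val,
        qS_val] at h1
      exact h1
    | cons n v =>
      have h1 := h.use (hc _ (by simp only [clC, List.mem_cons]; exact Or.inr (Or.inl rfl)))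
        (vnum I n) (vlst I v) u0 u0 (by simp)
      simp only [pE, List.mem_singleton, exists_eq_left, p2_val, qK_val, qZ_val, qN_val,
        qS_val, x0_val, x1_val] at h1
      exact h1
  | tail =>
    intro hc v w hw
    simp only [Code.eval] at hw
    rw [Part.mem_some_iff.1 hw]
    cases v with
    | nil =>
      have h1 := h.use (hc _ (by simp only [clC, List.mem_cons]; exact Or.inl rfl)) u0 u0 u0 u0
        (by simp)
      simp only [pE, List.mem_singleton, exists_eq_left, p2_val, qK_val, qZ_val, qN_val,
        qS_val] at h1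
      exact h1
    | cons n v =>
      have h1 := h.use (hc _ (by simp only [clC, List.mem_cons]; exact Or.inr (Or.inl rfl)))
        (vnum I n) (vlst I v) u0 u0 (by simp)
      simp only [pE, List.mem_singleton, exists_eq_left, p2_val, qK_val, qZ_val, qN_val,
        qS_val, x0_val, x1_val] at h1
      exact h1
  | cons f g ihf ihg =>
    intro hc v w hw
    have ihf := ihf fun A hA => hc A (by
      simp only [clC, List.mem_cons, List.mem_append]; tauto)
    have ihg := ihg fun A hA => hc A (by
      simp only [clC, List.mem_cons, List.mem_append]; tauto)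
    simp only [Code.eval, Part.bind_eq_bind, Part.pure_eq_some, Part.mem_bind_iff,
      Part.mem_some_iff] at hw
    obtain ⟨a, ha, b, hb, rfl⟩ := hw
    have hg1 := ihg v b hb
    have hf1 := ihf v a ha
    cases a with
    | nil =>
      have h1 := h.use (hc _ (by simp only [clC, List.mem_cons]; exact Or.inl rfl))
        (vlst I v) (vlst I b) u0 u0
      simp only [pE, List.mem_cons, List.not_mem_nil, or_false, forall_eq_or_imp, forall_eq,
        exists_eq_left, p2_val, qK_val, qZ_val, qN_val, qS_val, x0_val, x1_val] at h1
      exact h1 ⟨hf1, hg1⟩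
    | cons n a =>
      have h1 := h.use (hc _ (by simp only [clC, List.mem_cons]; exact Or.inr (Or.inl rfl)))
        (vlst I v) (vlst I b) (vnum I n) (vlst I a)
      simp only [pE, List.mem_cons, List.not_mem_nil, or_false, forall_eq_or_imp, forall_eq,
        exists_eq_left, p2_val, qK_val, qZ_val, qN_val, qS_val, x0_val, x1_val, x2_val,
        x3_val] at h1
      exact h1 ⟨hf1, hg1⟩
  | comp f g ihf ihg =>
    intro hc v w hw
    have ihf := ihf fun A hA => hc A (by
      simp only [clC, List.mem_cons, List.mem_append]; tauto)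
    have ihg := ihg fun A hA => hc A (by
      simp only [clC, List.mem_cons, List.mem_append]; tauto)
    simp only [Code.eval, Part.bind_eq_bind, Part.mem_bind_iff] at hw
    obtain ⟨a, ha, hb⟩ := hw
    have h1 := h.use (hc _ (by simp only [clC, List.mem_cons]; exact Or.inl rfl))
        (vlst I v) (vlst I a) (vlst I w) u0
    simp only [pE, List.mem_cons, List.not_mem_nil, or_false, forall_eq_or_imp, forall_eq,
        exists_eq_left, p2_val, x0_val, x1_val, x2_val] at h1
    exact h1 ⟨ihg v a ha, ihf a w hb⟩
  | case f g ihf ihg =>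
    intro hc v w hw
    have ihf := ihf fun A hA => hc A (by
      simp only [clC, List.mem_cons, List.mem_append]; tauto)
    have ihg := ihg fun A hA => hc A (by
      simp only [clC, List.mem_cons, List.mem_append]; tauto)
    simp only [Code.eval] at hw
    cases v with
    | nil =>
      simp only [List.headI_nil, List.tail_nil] at hw
      have h1 := h.use (hc _ (by simp only [clC, List.mem_cons]; exact Or.inl rfl))
        (vlst I w) u0 u0 u0
      simp only [pE, List.mem_cons, List.not_mem_nil, or_false, forall_eq,
        exists_eq_left, p2_val, qN_val, x0_val] at h1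
      exact h1 (ihf [] w hw)
    | cons n v =>
      simp only [List.headI_cons, List.tail_cons] at hw
      cases n with
      | zero =>
        have h1 := h.use (hc _ (by simp only [clC, List.mem_cons]; exact Or.inr (Or.inl rfl)))
          (vlst I w) (vlst I v) u0 u0
        simp only [pE, List.mem_cons, List.not_mem_nil, or_false, forall_eq,
          exists_eq_left, p2_val, qN_val, x0_val, x1_val, qK_val, qZ_val] at h1
        exact h1 (ihf v w hw)
      | succ n =>
        have h1 := h.use (hc _ (by
          simp only [clC, List.mem_cons]; exact Or.inr (Or.inr (Or.inl rfl))))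
          (vlst I w) (vlst I v) (vnum I n) u0
        simp only [pE, List.mem_cons, List.not_mem_nil, or_false, forall_eq,
          exists_eq_left, p2_val, qN_val, x0_val, x1_val, x2_val, qK_val, qS_val] at h1
        exact h1 (ihg (n :: v) w hw)
  | fix f ihf =>
    intro hc v w hw
    have ihf := ihf fun A hA => hc A (by
      simp only [clC, List.mem_cons]; tauto)
    simp only [Code.eval] at hw
    refine PFun.fixInduction' (C := fun v =>
      0 < v2 I (3 + encC (Code.fix f)) (vlst I v) (vlst I w)) hw ?_ ?_
    · intro v hv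
      simp only [Part.mem_map_iff] at hv
      obtain ⟨a, ha, hb⟩ := hv
      have hfa := ihf v a ha
      split_ifs at hb with h0
      injection hb with hb
      subst hb
      cases a with
      | nil =>
        have h1 := h.use (hc _ (by simp only [clC, List.mem_cons]; exact Or.inl rfl))
          (vlst I v) u0 u0 u0
        simp only [pE, List.mem_cons, List.not_mem_nil, or_false, forall_eq,
          exists_eq_left, p2_val, qN_val, x0_val] at h1
        exact h1 hfa
      | cons n a =>
        simp only [List.headI_cons] at h0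
        subst h0
        have h1 := h.use (hc _ (by simp only [clC, List.mem_cons]; exact Or.inr (Or.inl rfl)))
          (vlst I v) (vlst I a) u0 u0
        simp only [pE, List.mem_cons, List.not_mem_nil, or_false, forall_eq,
          exists_eq_left, p2_val, qN_val, x0_val, x1_val, qK_val, qZ_val] at h1
        exact h1 hfa
    · intro v v' _ hv ih
      simp only [Part.mem_map_iff] at hv
      obtain ⟨a, ha, hb⟩ := hv
      have hfa := ihf v a ha
      split_ifs at hb with h0
      injection hb with hb
      cases a with
      | nil => simp at h0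
      | cons n a =>
        simp only [List.headI_cons] at h0
        obtain ⟨n, rfl⟩ := Nat.exists_eq_succ_of_ne_zero h0
        simp only [List.tail_cons] at hb
        subst hb
        have h1 := h.use (hc _ (by
          simp only [clC, List.mem_cons]; exact Or.inr (Or.inr (Or.inl rfl))))
          (vlst I v) (vlst I w) (vlst I a) (vnum I n)
        simp only [pE, List.mem_cons, List.not_mem_nil, or_false, forall_eq_or_imp, forall_eq,
          exists_eq_left, p2_val, qN_val, x0_val, x1_val, x2_val, x3_val, qK_val, qS_val] at h1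
        exact h1 ⟨hfa, ih⟩

theorem HM.exists_f (h : HM I s L) {c : Code} (hc : ∀ A ∈ clR c, A ∈ L) (n : ℕ) :
    ∃ k, 0 < v2 I 1 (vnum I n) (vnum I k) := by
  classical
  obtain ⟨u0⟩ := id ‹Nonempty U›
  -- `Y` decreases
  have hY : ∀ a, vY I (vS I a) < vY I a := by
    intro a
    have h1 := h.lt _ (asg_ge s a u0 u0 u0) _
      (hc _ (by simp only [clR, List.mem_cons]; exact Or.inl rfl))
    simp only [Fm.val, pY_val, qS_val, x0_val] at h1
    exact (gimp_lt_one (vdown_le_one (h.good 0 1 (fun _ => a)))).1 h1
  have hYs : ∀ k : ℕ, vY I (vnum I k) ≤ 1 / ((k : ℝ) + 1) := by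
    intro k
    induction k with
    | zero =>
      have := vdown_le_one (h.good 0 1 (fun _ => vnum I 0))
      simpa [vY] using this
    | succ k ih => exact vdown_lt_step (h.good _ _ _) (hY _) ih
  have hX : 0 < vX I (vnum I n) := by
    have h1 := h.lt _ (asg_ge s (vnum I n) u0 u0 u0) _
      (hc _ (by simp only [clR, List.mem_cons]; exact Or.inr (Or.inl rfl)))
    rw [neg_lt_one h.good, pX_val, x0_val] at h1
    exact h1
  have hG : ∃ k, 0 < v2 I 0 (vnum I n) (vnum I k) := by
    obtain ⟨k, hk⟩ := exists_nat_one_div_lt hX
    refine ⟨k, ?_⟩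
    have h1 := h.lt _ (asg_ge s (vnum I n) (vnum I k) u0 u0) _
      (hc _ (by simp only [clR, List.mem_cons]; exact Or.inr (Or.inr (Or.inl rfl))))
    have h2 : (Fm.imp (pY x1) (pX x0)).val I (asg s (vnum I n) (vnum I k) u0 u0) =
        gimp (vY I (vnum I k)) (vX I (vnum I n)) := rfl
    have h3 : (Fm.and (Fm.imp (pY x1) (pX x0)) (neg (p2 0 x0 x1))).val I
        (asg s (vnum I n) (vnum I k) u0 u0) = min ((Fm.imp (pY x1) (pX x0)).val I
        (asg s (vnum I n) (vnum I k) u0 u0)) ((neg (p2 0 x0 x1)).val I
        (asg s (vnum I n) (vnum I k) u0 u0)) := rfl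
    rw [h3, min_lt_iff, h2, neg_lt_one h.good, p2_val, x0_val, x1_val] at h1
    rcases h1 with h1 | h1
    · rw [gimp, if_pos ((hYs k).trans hk.le)] at h1
      exact absurd h1 (lt_irrefl _)
    · exact h1
  have h1 := Nat.find_spec hG
  have h2 := fun m => Nat.find_min hG (m := m)
  rcases hk : Nat.find hG with _ | k
  · rw [hk] at h1
    refine ⟨0, ?_⟩
    have h3 := h.use (hc _ (by
      simp only [clR, List.mem_cons]; exact Or.inr (Or.inr (Or.inr (Or.inl rfl)))))
      (vnum I n) u0 u0 u0
    simp only [List.mem_cons, List.not_mem_nil, or_false, forall_eq,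
      exists_eq_left, p2_val, x0_val, qZ_val] at h3
    exact h3 h1
  · rw [hk] at h1
    refine ⟨k + 1, ?_⟩
    have h3 := h.use (hc _ (by
      simp only [clR, List.mem_cons]; exact Or.inr (Or.inr (Or.inr (Or.inr (Or.inl rfl))))))
      (vnum I n) (vnum I k) u0 u0
    simp only [List.mem_cons, List.not_mem_nil, or_false, forall_eq, exists_eq_or_imp,
      exists_eq_left, p2_val, x0_val, x1_val, qS_val] at h3
    rcases h3 h1 with h3 | h3
    · exact absurd h3 (h2 k (by omega))
    · exact h3

end

theorem of_not_valid_horn {c : Code} {G : ℕ → ℕ → ℕ}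
    (hG : ∀ e k, c.eval [e, k] = Part.some [G e k]) {e : ℕ}
    (h : ¬ Valid Vdown (hornF c e)) : ∃ f : ℕ → ℕ, ∀ m, run G f e m ≠ 0 := by
  rw [not_valid_iff] at h
  obtain ⟨U, hU, I, hI, s, h⟩ := h
  obtain ⟨u0⟩ := id hU
  have hM : HM I s (cl [] [p2 2 qZ (numT e)] :: clR c) := by
    refine ⟨hI, ?_⟩
    intro s' hs'
    rw [hornF, exs_lt_one hI] at h
    exact (ors_lt_one _ _).1 (h s' fun j hj => hs' j (by simpa using hj))
  have hc : ∀ A ∈ clR c, A ∈ (cl [] [p2 2 qZ (numT e)] :: clR c) := fun A hA =>
    List.mem_cons_of_mem _ hA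
  choose f hf using fun n => hM.exists_f hc n
  refine ⟨f, ?_⟩
  have hP : ∀ m, 0 < v2 I 2 (vnum I m) (vnum I (run G f e m)) := by
    intro m
    induction m with
    | zero =>
      have h3 := hM.use (bs := []) (hs := [p2 2 qZ (numT e)]) (by simp) u0 u0 u0 u0 (by simp)
      simp only [List.mem_cons, List.not_mem_nil, or_false,
        exists_eq_left, p2_val, qZ_val, numT_val] at h3
      exact h3
    | succ m ih =>
      have h3 := hM.use (hc _ (by
        simp only [clR, List.mem_cons]
        exact Or.inr (Or.inr (Or.inr (Or.inr (Or.inr (Or.inl rfl)))))))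
        (vnum I m) (vnum I (run G f e m)) (vnum I (f m)) (vnum I (run G f e (m + 1)))
      simp only [List.mem_cons, List.not_mem_nil, or_false, forall_eq, forall_eq_or_imp,
        exists_eq_left, p2_val, x0_val, x1_val, x2_val, x3_val, qS_val, qK_val, qN_val, pE] at h3
      apply h3
      refine ⟨ih, hf m, ?_⟩
      have h4 := hM.sound c (fun A hA => hc A (by
        simp only [clR, List.mem_cons]; tauto)) [run G f e m, f m] [run G f e (m + 1)] (by
          rw [hG]
          exact Part.mem_some _)
      exact h4
  intro m hm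
  have h1 := hP m
  rw [hm] at h1
  have h3 := hM.use (hc _ (by
    simp only [clR, List.mem_cons]
    exact Or.inr (Or.inr (Or.inr (Or.inr (Or.inr (Or.inr (Or.inl rfl))))))))
    (vnum I m) u0 u0 u0
  simp only [List.mem_cons, List.not_mem_nil, or_false, forall_eq, false_and, exists_false,
    p2_val, x0_val, qZ_val] at h3
  exact h3 h1

end Pool.Agent.Lib.MP_80950a_lc
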