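import Pool.Agent.Lib.MP_80950a_lc.HornA

/-!
The standard countermodel.
-/

set_option autoImplicit false
set_option linter.unusedSectionVars false
set_option linter.unusedSimpArgs false

namespace Pool.Agent.Lib.MP_80950a_lc

open Turing.ToPartrec (Code)

/-- `j`-th argument -/
def arg {n : ℕ} (x : Fin n → List ℕ) (j : ℕ) : List ℕ := if h : j < n then x ⟨j, h⟩ else []

open Classical in
/-- the standard model: numbers `n` are represented by the lists `[n]` -/
noncomputable def stdI (f E : ℕ → ℕ) : Interp (List ℕ) where
  fn := fun k n x =>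
    if n = 0 then (if k = 0 then [0] else [])
    else if n = 1 then [(arg x 0).headI + 1]
    else (arg x 0).headI :: arg x 1
  pred := fun k n x =>
    if n = 1 then
      (if k = 0 then 1 / (((arg x 0).headI : ℝ) + 2) else 1 / ((f (arg x 0).headI : ℝ) + 2))
    else if k = 0 then (if f (arg x 0).headI ≤ (arg x 1).headI then 1 else 0)
    else if k = 1 then (if (arg x 1).headI = f (arg x 0).headI then 1 else 0)
    else if k = 2 then (if (arg x 1).headI = E (arg x 0).headI then 1 else 0)
    else if ∃ c, k = 3 + encC c ∧ arg x 1 ∈ c.eval (arg x 0) then 1 else 0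

theorem good_std (f E : ℕ → ℕ) : Good (stdI f E) := by
  intro k n x
  simp only [stdI]
  split_ifs
  all_goals first
    | exact one_mem_vdown
    | exact zero_mem_vdown
    | exact inv_mem_vdown' _

variable (f E : ℕ → ℕ)

theorem std_Z : vZ (stdI f E) = [0] := by simp [vZ, stdI]
theorem std_N : vN (stdI f E) = [] := by simp [vN, stdI]
theorem std_S (a : List ℕ) : vS (stdI f E) a = [a.headI + 1] := by simp [vS, stdI, arg]
theorem std_K (a b : List ℕ) : vK (stdI f E) a b = a.headI :: b := by simp [vK, stdI, arg]
theorem std_Y (a : List ℕ) : vY (stdI f E) a = 1 / ((a.headI : ℝ) + 2) := by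
  simp [vY, stdI, arg]
theorem std_X (a : List ℕ) : vX (stdI f E) a = 1 / ((f a.headI : ℝ) + 2) := by
  simp [vX, stdI, arg]
theorem std_0 (a b : List ℕ) : 0 < v2 (stdI f E) 0 a b ↔ f a.headI ≤ b.headI := by
  simp only [v2, stdI, arg]
  norm_num
  split_ifs with h <;> simp [h]
theorem std_1 (a b : List ℕ) : 0 < v2 (stdI f E) 1 a b ↔ b.headI = f a.headI := by
  simp only [v2, stdI, arg]
  norm_num
  split_ifs with h <;> simp [h]
theorem std_2 (a b : List ℕ) : 0 < v2 (stdI f E) 2 a b ↔ b.headI = E a.headI := by
  simp only [v2, stdI, arg]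
  norm_num
  split_ifs with h <;> simp [h]
theorem std_E (c : Code) (a b : List ℕ) :
    0 < v2 (stdI f E) (3 + encC c) a b ↔ b ∈ c.eval a := by
  classical
  have h0 : v2 (stdI f E) (3 + encC c) a b = if b ∈ c.eval a then 1 else 0 := by
    simp only [v2, stdI, arg]
    have h1 : ¬ (3 + encC c = 0) := by omega
    have h2 : ¬ (3 + encC c = 1) := by omega
    have h3 : ¬ (3 + encC c = 2) := by omega
    rw [if_neg (by norm_num), if_neg h1, if_neg h2, if_neg h3]
    have h4 : (∃ c', 3 + encC c = 3 + encC c' ∧ b ∈ c'.eval a) ↔ b ∈ c.eval a := by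
      constructor
      · rintro ⟨c', h5, h6⟩
        have : c = c' := encC_injective (by omega)
        rw [this]
        exact h6
      · intro h5
        exact ⟨c, rfl, h5⟩
    simp only [dif_pos (show (0 : ℕ) < 2 by norm_num), dif_pos (show (1 : ℕ) < 2 by norm_num),
      if_pos, if_neg one_ne_zero, h4]
  rw [h0]
  split_ifs with h <;> simp [h]

theorem var0_val {U : Type} (I : Interp U) (s : ℕ → U) : x0.val I s = s 0 := rfl
theorem var1_val {U : Type} (I : Interp U) (s : ℕ → U) : x1.val I s = s 1 := rfl
theorem var2_val {U : Type} (I : Interp U) (s : ℕ → U) : x2.val I s = s 2 := rfl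
theorem var3_val {U : Type} (I : Interp U) (s : ℕ → U) : x3.val I s = s 3 := rfl

theorem std_clC (c : Code) (s : ℕ → List ℕ) : ∀ A ∈ clC c, A.val (stdI f E) s < 1 := by
  have hI := good_std f E
  induction c with
  | zero' =>
    intro A hA
    simp only [clC, List.mem_singleton] at hA
    subst hA
    rw [cl_lt_one hI]
    intro _
    simp only [List.mem_singleton, exists_eq_left, pE, p2_val, std_E, qK_val, qZ_val, std_Z,
      std_K, var0_val, Code.eval]
    exact Part.mem_some _
  | succ =>
    intro A hA
    simp only [clC, List.mem_cons, List.not_mem_nil, or_false] at hA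
    rcases hA with rfl | rfl
    · rw [cl_lt_one hI]
      intro _
      simp only [List.mem_singleton, exists_eq_left, pE, p2_val, std_E, qK_val, qZ_val, std_Z,
        std_K, var0_val, Code.eval, qN_val, std_N, qS_val, std_S]
      exact Part.mem_some _
    · rw [cl_lt_one hI]
      intro _
      simp only [List.mem_singleton, exists_eq_left, pE, p2_val, std_E, qK_val, qZ_val, std_Z,
        std_K, var0_val, var1_val, Code.eval, qN_val, std_N, qS_val, std_S]
      exact Part.mem_some _
  | tail =>
    intro A hA
    simp only [clC, List.mem_cons, List.not_mem_nil, or_false] at hA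
    rcases hA with rfl | rfl
    · rw [cl_lt_one hI]
      intro _
      simp only [List.mem_singleton, exists_eq_left, pE, p2_val, std_E, qK_val, qZ_val, std_Z,
        std_K, var0_val, Code.eval, qN_val, std_N, qS_val, std_S]
      exact Part.mem_some _
    · rw [cl_lt_one hI]
      intro _
      simp only [List.mem_singleton, exists_eq_left, pE, p2_val, std_E, qK_val, qZ_val, std_Z,
        std_K, var0_val, var1_val, Code.eval, qN_val, std_N, qS_val, std_S]
      exact Part.mem_some _
  | cons f' g ihf ihg =>
    intro A hA
    simp only [clC, List.mem_cons, List.mem_append] at hA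
    rcases hA with rfl | rfl | h | h
    · rw [cl_lt_one hI]
      simp only [List.mem_cons, List.not_mem_nil, or_false, forall_eq_or_imp, forall_eq,
        exists_eq_left, pE, p2_val, std_E, qK_val, qZ_val, std_Z,
        std_K, var0_val, var1_val, qN_val, std_N, qS_val, std_S]
      rintro ⟨h1, h2⟩
      simp only [Code.eval, Part.bind_eq_bind, Part.pure_eq_some, Part.mem_bind_iff,
        Part.mem_some_iff]
      exact ⟨_, h1, _, h2, rfl⟩
    · rw [cl_lt_one hI]
      simp only [List.mem_cons, List.not_mem_nil, or_false, forall_eq_or_imp, forall_eq,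
        exists_eq_left, pE, p2_val, std_E, qK_val, qZ_val, std_Z,
        std_K, var0_val, var1_val, var2_val, var3_val, qN_val, std_N, qS_val, std_S]
      rintro ⟨h1, h2⟩
      simp only [Code.eval, Part.bind_eq_bind, Part.pure_eq_some, Part.mem_bind_iff,
        Part.mem_some_iff]
      exact ⟨_, h1, _, h2, rfl⟩
    · exact ihf A h
    · exact ihg A h
  | comp f' g ihf ihg =>
    intro A hA
    simp only [clC, List.mem_cons, List.mem_append] at hA
    rcases hA with rfl | h | h
    · rw [cl_lt_one hI]
      simp only [List.mem_cons, List.not_mem_nil, or_false, forall_eq_or_imp, forall_eq,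
        exists_eq_left, pE, p2_val, std_E, var0_val, var1_val, var2_val]
      rintro ⟨h1, h2⟩
      simp only [Code.eval, Part.bind_eq_bind, Part.mem_bind_iff]
      exact ⟨_, h1, h2⟩
    · exact ihf A h
    · exact ihg A h
  | case f' g ihf ihg =>
    intro A hA
    simp only [clC, List.mem_cons, List.mem_append] at hA
    rcases hA with rfl | rfl | rfl | h | h
    · rw [cl_lt_one hI]
      simp only [List.mem_cons, List.not_mem_nil, or_false, forall_eq,
        exists_eq_left, pE, p2_val, std_E, var0_val, qN_val, std_N]
      intro h1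
      simp only [Code.eval]
      exact h1
    · rw [cl_lt_one hI]
      simp only [List.mem_cons, List.not_mem_nil, or_false, forall_eq,
        exists_eq_left, pE, p2_val, std_E, var0_val, var1_val, qK_val, qZ_val, std_Z, std_K]
      intro h1
      simp only [Code.eval]
      exact h1
    · rw [cl_lt_one hI]
      simp only [List.mem_cons, List.not_mem_nil, or_false, forall_eq,
        exists_eq_left, pE, p2_val, std_E, var0_val, var1_val, var2_val, qK_val, qS_val,
        std_S, std_K]
      intro h1
      simp only [Code.eval]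
      exact h1
    · exact ihf A h
    · exact ihg A h
  | fix f' ihf =>
    intro A hA
    simp only [clC, List.mem_cons] at hA
    rcases hA with rfl | rfl | rfl | h
    · rw [cl_lt_one hI]
      simp only [List.mem_cons, List.not_mem_nil, or_false, forall_eq,
        exists_eq_left, pE, p2_val, std_E, var0_val, qN_val, std_N]
      intro h1
      simp only [Code.eval]
      rw [PFun.mem_fix_iff]
      left
      rw [Part.mem_map_iff]
      exact ⟨_, h1, rfl⟩
    · rw [cl_lt_one hI]
      simp only [List.mem_cons, List.not_mem_nil, or_false, forall_eq,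
        exists_eq_left, pE, p2_val, std_E, var0_val, var1_val, qK_val, qZ_val, std_Z, std_K]
      intro h1
      simp only [Code.eval]
      rw [PFun.mem_fix_iff]
      left
      rw [Part.mem_map_iff]
      exact ⟨_, h1, rfl⟩
    · rw [cl_lt_one hI]
      simp only [List.mem_cons, List.not_mem_nil, or_false, forall_eq, forall_eq_or_imp,
        exists_eq_left, pE, p2_val, std_E, var0_val, var1_val, var2_val, var3_val, qK_val,
        qS_val, std_S, std_K]
      rintro ⟨h1, h2⟩
      simp only [Code.eval] at h2 ⊢
      rw [PFun.mem_fix_iff]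
      right
      refine ⟨_, ?_, h2⟩
      rw [Part.mem_map_iff]
      exact ⟨_, h1, by simp⟩
    · exact ihf A h

theorem not_valid_horn {c : Code} {G : ℕ → ℕ → ℕ}
    (hG : ∀ e k, c.eval [e, k] = Part.some [G e k]) {e : ℕ}
    (h : ∃ f : ℕ → ℕ, ∀ m, run G f e m ≠ 0) : ¬ Valid Vdown (hornF c e) := by
  obtain ⟨f, hf⟩ := h
  rw [not_valid_iff]
  set E := run G f e with hE
  have hI := good_std f E
  refine ⟨List ℕ, inferInstance, stdI f E, hI, fun _ => [], ?_⟩
  rw [hornF, exs_lt_one hI]
  intro s _
  rw [ors_lt_one]
  have hnum : ∀ n, (vnum (stdI f E) n).headI = n := by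
    intro n
    cases n with
    | zero => simp [vnum, std_Z]
    | succ n =>
      have : ∀ n, vnum (stdI f E) n = [n] := by
        intro n
        induction n with
        | zero => simp [vnum, std_Z]
        | succ n ih => simp [vnum, std_S, ih]
      rw [this]
      rfl
  intro A hA
  simp only [clR, List.mem_cons] at hA
  rcases hA with rfl | rfl | rfl | rfl | rfl | rfl | rfl | rfl | h
  · rw [cl_lt_one hI]
    intro _
    simp only [List.mem_singleton, exists_eq_left, p2_val, std_2, qZ_val, std_Z, numT_val, hnum]
    rfl
  · simp only [Fm.val, pY_val, qS_val, std_Y, std_S, var0_val]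
    rw [gimp_lt_one]
    · simp only [List.headI_cons]
      push_cast
      have : (0 : ℝ) ≤ ((s 0).headI : ℝ) := Nat.cast_nonneg _
      rw [div_lt_div_iff₀ (by linarith) (by linarith)]
      linarith
    · have : (0 : ℝ) ≤ ((s 0).headI : ℝ) := Nat.cast_nonneg _
      rw [div_le_one (by linarith)]
      linarith
  · rw [neg_lt_one hI, pX_val, std_X]
    positivity
  · have h2 : (Fm.imp (pY x1) (pX x0)).val (stdI f E) s =
        gimp (vY (stdI f E) (s 1)) (vX (stdI f E) (s 0)) := rfl
    have h3 : (Fm.and (Fm.imp (pY x1) (pX x0)) (neg (p2 0 x0 x1))).val (stdI f E) s =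
      min ((Fm.imp (pY x1) (pX x0)).val (stdI f E) s)
        ((neg (p2 0 x0 x1)).val (stdI f E) s) := rfl
    rw [h3, min_lt_iff, h2, neg_lt_one hI, p2_val, std_0, var0_val, var1_val]
    by_cases hle : f (s 0).headI ≤ (s 1).headI
    · exact Or.inr hle
    · left
      push Not at hle
      have h4 : (((s 1).headI : ℕ) : ℝ) < ((f (s 0).headI : ℕ) : ℝ) := by exact_mod_cast hle
      have h5 : (0 : ℝ) ≤ (((s 1).headI : ℕ) : ℝ) := Nat.cast_nonneg _
      rw [gimp_lt_one, std_Y, std_X]
      · rw [div_lt_div_iff₀ (by linarith) (by linarith)]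
        linarith
      · rw [std_Y, div_le_one (by linarith)]
        linarith
  · rw [cl_lt_one hI]
    simp only [List.mem_cons, List.not_mem_nil, or_false, forall_eq, exists_eq_left, p2_val,
      std_0, std_1, var0_val, qZ_val, std_Z, List.headI_cons]
    intro h1
    omega
  · rw [cl_lt_one hI]
    simp only [List.mem_cons, List.not_mem_nil, or_false, forall_eq, exists_eq_or_imp,
      exists_eq_left, p2_val,
      std_0, std_1, var0_val, var1_val, qS_val, std_S, List.headI_cons]
    intro h1
    omega
  · rw [cl_lt_one hI]
    simp only [List.mem_cons, List.not_mem_nil, or_false, forall_eq, forall_eq_or_imp,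
      exists_eq_left, p2_val, pE, std_E, qK_val, qN_val, std_K, std_N,
      std_2, std_1, var0_val, var1_val, var2_val, var3_val, qS_val, std_S, List.headI_cons]
    rintro ⟨h1, h2, h3⟩
    rw [hG, Part.mem_some_iff] at h3
    injection h3 with h3
    rw [h3, h1, h2, hE]
    rfl
  · rw [cl_lt_one hI]
    simp only [List.mem_cons, List.not_mem_nil, or_false, forall_eq, false_and, exists_false,
      p2_val, std_2, var0_val, qZ_val, std_Z, List.headI_cons]
    intro h1
    exact hf _ h1.symm
  · exact std_clC f E c s A h

end Pool.Agent.Lib.MP_80950a_lc
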