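import Pool.Agent.Lib.MP_80950a_lc.StarC
import Pool.Agent.Lib.MP_80950a_lc.HornB

/-!
`Vdown` has effective prenex normal forms, but its logic is not arithmetical.
-/

set_option autoImplicit false
set_option linter.unusedSectionVars false

namespace Pool.Agent.Lib.MP_80950a_lc

open Turing.ToPartrec (Code)

theorem numT_code (n : ℕ) : (numT n).code =
    Nat.rec (motive := fun _ => ℕ) qZ.code (fun _ a => 2 * Nat.pair 0 (Encodable.encode [a]) + 1) n := by
  induction n with
  | zero => rfl
  | succ n ih =>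
    have h1 : (numT (n + 1)).code = 2 * Nat.pair 0 (Encodable.encode [(numT n).code]) + 1 := rfl
    rw [h1, ih]

theorem pt_numT : PT (α := ℕ) numT := by
  unfold PT
  simp only [numT_code]
  apply Primrec.nat_rec₁
  have h1 : Primrec fun p : ℕ × ℕ => ([p.2] : List ℕ) :=
    Primrec.list_cons.comp Primrec.snd (Primrec.const [])
  exact (pr_lin 2 1 (pr_pair (Primrec.const 0) (Primrec.encode.comp h1))).to₂

theorem pf_horn (c : Code) : PF (α := ℕ) (hornF c) := by
  unfold hornF
  apply pf_exs (Primrec.const _)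
  apply pf_ors
  simp only [List.map_cons]
  refine Primrec.list_cons.comp ?_ (Primrec.const _)
  have h1 : ∀ e, cl [] [p2 2 qZ (numT e)] =
      Fm.and (Fm.imp (p2 2 qZ (numT e)) Fm.bot) (Fm.imp Fm.bot Fm.bot) := fun e => rfl
  simp only [h1]
  refine pf_and (pf_imp ?_ pf_bot) (pf_imp pf_bot pf_bot)
  unfold p2
  refine pf_atom (t := fun e j => if j = 0 then qZ else numT e) (Primrec.const 2)
    (Primrec.const 2) ?_
  exact (pt_ite (α := ℕ × ℕ) (c := fun p => p.2 = 0)
      (Primrec.eq.comp Primrec.snd (Primrec.const 0))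
      (Primrec.const _) (pt_numT.comp Primrec.fst)).to₂

theorem not_arithmetical_vdown : ¬ IsArithmetical Vdown := by
  rintro ⟨n, hn⟩
  refine not_sigma_of_reduction ?_ n hn
  intro A hA
  obtain ⟨c, G, hG, hA⟩ := form_state hA
  refine ⟨fun x => (hornF c (Nat.pair x 0 + 1)).code, ?_, fun x => ?_⟩
  · have h1 : Primrec fun x : ℕ => Nat.pair x 0 + 1 :=
      pr_addc 1 (pr_pair Primrec.id (Primrec.const 0))
    exact ((pf_horn c).comp h1).to_comp
  · rw [hA]
    constructor
    · rintro h ⟨F, hF, hcode⟩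
      rw [Fm.code_injective hcode] at hF
      exact not_valid_horn hG h hF
    · intro h
      apply of_not_valid_horn hG
      intro hv
      exact h ⟨_, hv, rfl⟩

/-- the main theorem -/
theorem main : (IsGodelSet Vdown ∧ HasPrenexForms Vdown ∧ ¬ IsArithmetical Vdown) ∧
    ¬ ∀ V : Set ℝ, IsGodelSet V → (HasPrenexForms V ↔ IsArithmetical V) :=
  ⟨⟨isGodelSet_vdown, hasPrenexForms_vdown, not_arithmetical_vdown⟩, fun h =>
    not_arithmetical_vdown ((h Vdown isGodelSet_vdown).1 hasPrenexForms_vdown)⟩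

end Pool.Agent.Lib.MP_80950a_lc
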