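import Pool.Agent.Lib.MP_80950a_lc.Val

/-!
The prenex formula `star k0` attached to the formula with Gödel number `k0`.
-/

set_option autoImplicit false

namespace Pool.Agent.Lib.MP_80950a_lc

section
variable (k0 : ℕ)

/-- the atom `C` -/
def aC : Fm := Fm.atom (k0 + 1) 0 (fun _ => Tm.var 0)
/-- the atom `Y(t)` -/
def aY (t : Tm) : Fm := Fm.atom (k0 + 1) 1 (fun _ => t)
/-- the term `s(t)` -/
def tS (t : Tm) : Tm := Tm.fn (k0 + 1) 1 (fun _ => t)
/-- the variable `z` -/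
def tz : Tm := Tm.var (k0 + 2)
/-- the atom `R_k(x_0,...,x_{n-1})`, where `n = k0+2` -/
def aR (k : ℕ) : Fm := Fm.atom (k0 + 1 + k) (k0 + 2) (fun j => Tm.var j)
/-- the atom `R_k(x_0,...,x_{n-1})` with `x_i` replaced by `t` -/
def aRs (k i : ℕ) (t : Tm) : Fm :=
  Fm.atom (k0 + 1 + k) (k0 + 2) (fun j => if (j : ℕ) = i then t else Tm.var j)
/-- the atom `R_{k0}(c_0,...,c_{n-1})` -/
def aRc : Fm := Fm.atom (k0 + 1 + k0) (k0 + 2) (fun j => Tm.fn (k0 + 1 + j) 0 (fun _ => Tm.var 0))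
/-- Skolem term `f_k(x_0,...,x_{n-1})` -/
def tf (k : ℕ) : Tm := Tm.fn (k0 + 1 + k) (k0 + 2) (fun j => Tm.var j)
/-- Skolem term `g_k(x_0,...,x_{n-1},z)` -/
def tg (k : ℕ) : Tm := Tm.fn (k0 + 1 + k) (k0 + 3) (fun j => Tm.var j)
/-- `A ≤ B` -/
def leq (A B : Fm) : Fm := Fm.imp (Fm.imp A B) (aC k0)
/-- `A = B` -/
def eqv (A B : Fm) : Fm := Fm.imp (Fm.and (Fm.imp A B) (Fm.imp B A)) (aC k0)

/-- the defining constraint of `R_k` -/
noncomputable def clause (k : ℕ) : Fm :=
  if k = 0 then eqv k0 (aR k0 k) Fm.bot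
  else if (k - 1) % 6 = 0 then eqv k0 (aR k0 k) (Fm.ofCode k)
  else if (k - 1) % 6 = 1 then
    eqv k0 (aR k0 k)
      (Fm.and (aR k0 (Nat.unpair ((k - 1) / 6)).1) (aR k0 (Nat.unpair ((k - 1) / 6)).2))
  else if (k - 1) % 6 = 2 then
    eqv k0 (aR k0 k)
      (Fm.or (aR k0 (Nat.unpair ((k - 1) / 6)).1) (aR k0 (Nat.unpair ((k - 1) / 6)).2))
  else if (k - 1) % 6 = 3 then
    eqv k0 (aR k0 k)
      (Fm.and (Fm.imp (aR k0 (Nat.unpair ((k - 1) / 6)).1) (aR k0 (Nat.unpair ((k - 1) / 6)).2))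
        (aC k0))
  else if (k - 1) % 6 = 4 then
    Fm.or
      (leq k0 (aR k0 k)
        (aRs k0 (Nat.unpair ((k - 1) / 6)).2 (Nat.unpair ((k - 1) / 6)).1 (tz k0)))
      (Fm.and
        (leq k0 (aRs k0 (Nat.unpair ((k - 1) / 6)).2 (Nat.unpair ((k - 1) / 6)).1 (tf k0 k))
          (aR k0 k))
        (leq k0 (aRs k0 (Nat.unpair ((k - 1) / 6)).2 (Nat.unpair ((k - 1) / 6)).1 (tg k0 k))
          (aY k0 (tz k0))))
  else
    Fm.or
      (leq k0 (aRs k0 (Nat.unpair ((k - 1) / 6)).2 (Nat.unpair ((k - 1) / 6)).1 (tz k0))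
        (aR k0 k))
      (leq k0 (aR k0 k)
        (aRs k0 (Nat.unpair ((k - 1) / 6)).2 (Nat.unpair ((k - 1) / 6)).1 (tf k0 k)))

/-- all the constraints -/
noncomputable def clauses : List Fm :=
  aC k0 :: Fm.imp (aC k0) (aRc k0) :: leq k0 (aY k0 (tz k0)) (aC k0) ::
    Fm.imp (aY k0 (tz k0)) (aY k0 (tS k0 (tz k0))) ::
    (List.range (k0 + 1)).map fun k => Fm.or (leq k0 (aR k0 k) (aC k0)) (clause k0 k)

/-- the prenex form -/
noncomputable def star : Fm := exs (List.range (k0 + 3)) (ors (clauses k0))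

end

theorem unpair_div_lt {k : ℕ} (hk : k ≠ 0) :
    (Nat.unpair ((k - 1) / 6)).1 < k ∧ (Nat.unpair ((k - 1) / 6)).2 < k := by
  have h1 := Nat.unpair_left_le ((k - 1) / 6)
  have h2 := Nat.unpair_right_le ((k - 1) / 6)
  omega

/-- induction principle matching the case distinction of `clause` -/
theorem code_cases (G : Fm) :
    (G = Fm.bot ∧ G.code = 0) ∨
    (∃ k n ts, G = Fm.atom k n ts ∧ G.code ≠ 0 ∧ (G.code - 1) % 6 = 0) ∨
    (∃ A B, G = Fm.and A B ∧ G.code ≠ 0 ∧ (G.code - 1) % 6 = 1 ∧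
      (Nat.unpair ((G.code - 1) / 6)).1 = A.code ∧ (Nat.unpair ((G.code - 1) / 6)).2 = B.code) ∨
    (∃ A B, G = Fm.or A B ∧ G.code ≠ 0 ∧ (G.code - 1) % 6 = 2 ∧
      (Nat.unpair ((G.code - 1) / 6)).1 = A.code ∧ (Nat.unpair ((G.code - 1) / 6)).2 = B.code) ∨
    (∃ A B, G = Fm.imp A B ∧ G.code ≠ 0 ∧ (G.code - 1) % 6 = 3 ∧
      (Nat.unpair ((G.code - 1) / 6)).1 = A.code ∧ (Nat.unpair ((G.code - 1) / 6)).2 = B.code) ∨
    (∃ i A, G = Fm.all i A ∧ G.code ≠ 0 ∧ (G.code - 1) % 6 = 4 ∧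
      (Nat.unpair ((G.code - 1) / 6)).1 = i ∧ (Nat.unpair ((G.code - 1) / 6)).2 = A.code) ∨
    (∃ i A, G = Fm.ex i A ∧ G.code ≠ 0 ∧ (G.code - 1) % 6 = 5 ∧
      (Nat.unpair ((G.code - 1) / 6)).1 = i ∧ (Nat.unpair ((G.code - 1) / 6)).2 = A.code) := by
  cases G with
  | bot => exact Or.inl ⟨rfl, rfl⟩
  | atom k n ts =>
    right; left
    refine ⟨k, n, ts, rfl, ?_, ?_⟩ <;> simp only [Fm.code] <;> omega
  | and A B =>
    right; right; left
    refine ⟨A, B, rfl, ?_, ?_, ?_, ?_⟩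
    · simp only [Fm.code]; omega
    · simp only [Fm.code]; omega
    · have : ((Fm.and A B).code - 1) / 6 = Nat.pair A.code B.code := by
        simp only [Fm.code]; omega
      rw [this, Nat.unpair_pair]
    · have : ((Fm.and A B).code - 1) / 6 = Nat.pair A.code B.code := by
        simp only [Fm.code]; omega
      rw [this, Nat.unpair_pair]
  | or A B =>
    right; right; right; left
    refine ⟨A, B, rfl, ?_, ?_, ?_, ?_⟩
    · simp only [Fm.code]; omega
    · simp only [Fm.code]; omega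
    · have : ((Fm.or A B).code - 1) / 6 = Nat.pair A.code B.code := by
        simp only [Fm.code]; omega
      rw [this, Nat.unpair_pair]
    · have : ((Fm.or A B).code - 1) / 6 = Nat.pair A.code B.code := by
        simp only [Fm.code]; omega
      rw [this, Nat.unpair_pair]
  | imp A B =>
    right; right; right; right; left
    refine ⟨A, B, rfl, ?_, ?_, ?_, ?_⟩
    · simp only [Fm.code]; omega
    · simp only [Fm.code]; omega
    · have : ((Fm.imp A B).code - 1) / 6 = Nat.pair A.code B.code := by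
        simp only [Fm.code]; omega
      rw [this, Nat.unpair_pair]
    · have : ((Fm.imp A B).code - 1) / 6 = Nat.pair A.code B.code := by
        simp only [Fm.code]; omega
      rw [this, Nat.unpair_pair]
  | all i A =>
    right; right; right; right; right; left
    refine ⟨i, A, rfl, ?_, ?_, ?_, ?_⟩
    · simp only [Fm.code]; omega
    · simp only [Fm.code]; omega
    · have : ((Fm.all i A).code - 1) / 6 = Nat.pair i A.code := by
        simp only [Fm.code]; omega
      rw [this, Nat.unpair_pair]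
    · have : ((Fm.all i A).code - 1) / 6 = Nat.pair i A.code := by
        simp only [Fm.code]; omega
      rw [this, Nat.unpair_pair]
  | ex i A =>
    right; right; right; right; right; right
    refine ⟨i, A, rfl, ?_, ?_, ?_, ?_⟩
    · simp only [Fm.code]; omega
    · simp only [Fm.code]; omega
    · have : ((Fm.ex i A).code - 1) / 6 = Nat.pair i A.code := by
        simp only [Fm.code]; omega
      rw [this, Nat.unpair_pair]
    · have : ((Fm.ex i A).code - 1) / 6 = Nat.pair i A.code := by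
        simp only [Fm.code]; omega
      rw [this, Nat.unpair_pair]

theorem qf_clause (k0 k : ℕ) : QF (clause k0 k) := by
  unfold clause
  have hR : ∀ k, QF (aR k0 k) := fun k => QF.atom _ _ _
  have hC : QF (aC k0) := QF.atom _ _ _
  have hE : ∀ {A B}, QF A → QF B → QF (eqv k0 A B) := fun hA hB =>
    QF.imp (QF.and (QF.imp hA hB) (QF.imp hB hA)) hC
  have hL : ∀ {A B}, QF A → QF B → QF (leq k0 A B) := fun hA hB =>
    QF.imp (QF.imp hA hB) hC
  have hRs : ∀ k i t, QF (aRs k0 k i t) := fun k i t => QF.atom _ _ _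
  have hY : ∀ t, QF (aY k0 t) := fun t => QF.atom _ _ _
  split_ifs with h0 h1 h2 h3 h4 h5
  · exact hE (hR _) QF.bot
  · apply hE (hR _)
    rcases code_cases (Fm.ofCode k) with ⟨_, h⟩ | ⟨k', n, ts, h, _, _⟩ | ⟨A, B, _, _, h, _⟩ |
      ⟨A, B, _, _, h, _⟩ | ⟨A, B, _, _, h, _⟩ | ⟨A, B, _, _, h, _⟩ | ⟨A, B, _, _, h, _⟩
    · rw [Fm.code_ofCode] at h; exact absurd h h0
    · rw [h]; exact QF.atom _ _ _
    all_goals rw [Fm.code_ofCode] at h; omega
  · exact hE (hR _) (QF.and (hR _) (hR _))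
  · exact hE (hR _) (QF.or (hR _) (hR _))
  · exact hE (hR _) (QF.and (QF.imp (hR _) (hR _)) hC)
  · exact QF.or (hL (hR _) (hRs _ _ _)) (QF.and (hL (hRs _ _ _) (hR _)) (hL (hRs _ _ _) (hY _)))
  · exact QF.or (hL (hRs _ _ _) (hR _)) (hL (hR _) (hRs _ _ _))

theorem prenex_star (k0 : ℕ) : Prenex (star k0) := by
  apply prenex_exs
  apply qf_ors
  intro A hA
  have hC : QF (aC k0) := QF.atom _ _ _
  have hL : ∀ {A B}, QF A → QF B → QF (leq k0 A B) := fun hA hB =>
    QF.imp (QF.imp hA hB) hC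
  simp only [clauses, List.mem_cons, List.mem_map] at hA
  rcases hA with rfl | rfl | rfl | rfl | ⟨k, -, rfl⟩
  · exact hC
  · exact QF.imp hC (QF.atom _ _ _)
  · exact hL (QF.atom _ _ _) hC
  · exact QF.imp (QF.atom _ _ _) (QF.atom _ _ _)
  · exact QF.or (hL (QF.atom _ _ _) hC) (qf_clause _ _)

/-- value of `leq` -/
theorem leq_lt_one {U : Type} [Nonempty U] {I : Interp U} (hI : Good I) (k0 : ℕ) (A B : Fm)
    (s : ℕ → U) :
    (leq k0 A B).val I s < 1 ↔
      (A.val I s ≤ B.val I s ∧ (aC k0).val I s < 1) ∨ (aC k0).val I s < B.val I s := by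
  have h1 : (leq k0 A B).val I s = gimp (gimp (A.val I s) (B.val I s)) ((aC k0).val I s) := rfl
  have h2 : gimp (A.val I s) (B.val I s) ≤ 1 :=
    vdown_le_one (gimp_mem (val_mem hI B s))
  rw [h1, gimp_lt_one h2]
  unfold gimp
  split_ifs with h
  · constructor
    · intro h3
      exact Or.inl ⟨h, h3⟩
    · rintro (h3 | h3)
      · exact h3.2
      · exact lt_of_lt_of_le h3 (val_le_one hI B s)
  · simp [h]

theorem eqv_lt_one {U : Type} [Nonempty U] {I : Interp U} (hI : Good I) (k0 : ℕ) (A B : Fm)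
    (s : ℕ → U) (hA : A.val I s ≤ (aC k0).val I s) (hC : (aC k0).val I s < 1) :
    (eqv k0 A B).val I s < 1 ↔ A.val I s = B.val I s := by
  have h1 : (eqv k0 A B).val I s =
    gimp (min (gimp (A.val I s) (B.val I s)) (gimp (B.val I s) (A.val I s)))
      ((aC k0).val I s) := rfl
  have h2 : min (gimp (A.val I s) (B.val I s)) (gimp (B.val I s) (A.val I s)) ≤ 1 :=
    (min_le_left _ _).trans (vdown_le_one (gimp_mem (val_mem hI B s)))
  rw [h1, gimp_lt_one h2, lt_min_iff]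
  constructor
  · rintro ⟨h3, h4⟩
    have h5 : B.val I s ≤ A.val I s := by
      by_contra hc
      rw [gimp, if_neg hc] at h4
      linarith
    apply le_antisymm _ h5
    by_contra hc
    rw [gimp, if_neg hc] at h3
    linarith
  · intro h
    rw [h]
    simp [gimp, hC]

end Pool.Agent.Lib.MP_80950a_lc
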