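import Pool.Agent.Lib.MP_80950a_lc.StarA

/-!
A countermodel of a formula yields a countermodel of its prenex form.
-/

set_option autoImplicit false
set_option linter.unusedSectionVars false

namespace Pool.Agent.Lib.MP_80950a_lc

/-- `v ↦ v/(1+v)`, which sends `1/n` to `1/(n+1)` -/
noncomputable def ev (v : ℝ) : ℝ := v / (1 + v)

theorem ev_inv (n : ℕ) : ev (1 / ((n : ℝ) + 1)) = 1 / ((n : ℝ) + 2) := by
  unfold ev
  have : (n : ℝ) + 1 ≠ 0 := by positivity
  have h2 : (n : ℝ) + 2 ≠ 0 := by positivity
  field_simp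
  ring

theorem ev_zero : ev 0 = 0 := by simp [ev]

theorem ev_one : ev 1 = 1 / 2 := by unfold ev; norm_num

theorem ev_mem {v : ℝ} (h : v ∈ Vdown) : ev v ∈ Vdown := by
  rcases h with rfl | ⟨n, rfl⟩
  · rw [ev_zero]; exact zero_mem_vdown
  · rw [ev_inv]; exact inv_mem_vdown' n

theorem ev_le_iff {a b : ℝ} (ha : a ∈ Vdown) (hb : b ∈ Vdown) : ev a ≤ ev b ↔ a ≤ b := by
  have h1 := vdown_nonneg ha
  have h2 := vdown_nonneg hb
  unfold ev
  rw [div_le_div_iff₀ (by linarith) (by linarith)]
  constructor <;> intro h <;> nlinarith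

theorem ev_lt_iff {a b : ℝ} (ha : a ∈ Vdown) (hb : b ∈ Vdown) : ev a < ev b ↔ a < b := by
  rw [← not_le, ← not_le, ev_le_iff hb ha]

theorem ev_le_half {v : ℝ} (h : v ∈ Vdown) : ev v ≤ 1 / 2 := by
  rw [← ev_one, ev_le_iff h one_mem_vdown]
  exact vdown_le_one h

section
variable {U : Type} [Nonempty U]

/-- `j`-th argument -/
def ith {m : ℕ} (d : U × ℕ) (x : Fin m → U × ℕ) (j : ℕ) : U × ℕ :=
  if h : j < m then x ⟨j, h⟩ else d

/-- assignment read off from the arguments -/
def envx (k0 : ℕ) (s : ℕ → U) {m : ℕ} (x : Fin m → U × ℕ) (j : ℕ) : U :=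
  if j < k0 + 2 then (ith (s j, 0) x j).1 else s j

/-- the model of the constraints -/
noncomputable def Ipr (I : Interp U) (k0 : ℕ) (s : ℕ → U) (wit : ℕ → (ℕ → U) → U)
    (gwit : ℕ → (ℕ → U) → ℕ → U) : Interp (U × ℕ) where
  fn := fun k m x =>
    if k ≤ k0 then (I.fn k m (fun j => (x j).1), 0)
    else if m = 0 then (s (k - (k0 + 1)), 0)
    else if m = 1 then ((ith (s 0, 0) x 0).1, (ith (s 0, 0) x 0).2 + 1)
    else if m = k0 + 2 then (wit (k - (k0 + 1)) (envx k0 s x), 0)
    else (gwit (k - (k0 + 1)) (envx k0 s x) (ith (s 0, 0) x (k0 + 2)).2, 0)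
  pred := fun k m x =>
    if k ≤ k0 then ev (I.pred k m (fun j => (x j).1))
    else if m = 0 then 1 / 2
    else if m = 1 then 1 / (((ith (s 0, 0) x 0).2 : ℝ) + 2)
    else ev ((Fm.ofCode (k - (k0 + 1))).val I (envx k0 s x))

/-- assignment on the first coordinates -/
def E (k0 : ℕ) (s : ℕ → U) (σ : ℕ → U × ℕ) (j : ℕ) : U :=
  if j < k0 + 2 then (σ j).1 else s j

variable {I : Interp U} (hI : Good I) (k0 : ℕ) (s : ℕ → U) (wit : ℕ → (ℕ → U) → U)
    (gwit : ℕ → (ℕ → U) → ℕ → U)

theorem good_pr (hI : Good I) : Good (Ipr I k0 s wit gwit) := by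
  intro k n x
  simp only [Ipr]
  split_ifs
  · exact ev_mem (hI _ _ _)
  · have := inv_mem_vdown' 0
    simpa using this
  · exact inv_mem_vdown' _
  · exact ev_mem (val_mem hI _ _)

theorem pr_aC (σ : ℕ → U × ℕ) : (aC k0).val (Ipr I k0 s wit gwit) σ = 1 / 2 := by
  simp [aC, Fm.val, Ipr]

theorem pr_aY (t : Tm) (σ : ℕ → U × ℕ) : (aY k0 t).val (Ipr I k0 s wit gwit) σ =
    1 / (((t.val (Ipr I k0 s wit gwit) σ).2 : ℝ) + 2) := by
  simp only [aY, Fm.val]
  generalize (t.val (Ipr I k0 s wit gwit) σ) = u
  simp [Ipr, ith]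

theorem pr_aR (k : ℕ) (σ : ℕ → U × ℕ) : (aR k0 k).val (Ipr I k0 s wit gwit) σ =
    ev ((Fm.ofCode k).val I (E k0 s σ)) := by
  simp only [aR, Fm.val, Ipr, Tm.val]
  rw [if_neg (by omega), if_neg (by omega), if_neg (by omega)]
  have h1 : k0 + 1 + k - (k0 + 1) = k := by omega
  rw [h1]
  congr 2
  funext j
  unfold envx E ith
  split_ifs <;> rfl

theorem pr_aRs (k i : ℕ) (t : Tm) (σ : ℕ → U × ℕ) (hi : i < k0 + 2) :
    (aRs k0 k i t).val (Ipr I k0 s wit gwit) σ =
    ev ((Fm.ofCode k).val I
      (Function.update (E k0 s σ) i (t.val (Ipr I k0 s wit gwit) σ).1)) := by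
  have h0 : (aRs k0 k i t).val (Ipr I k0 s wit gwit) σ =
      (aR k0 k).val (Ipr I k0 s wit gwit)
        (Function.update σ i (t.val (Ipr I k0 s wit gwit) σ)) := by
    simp only [aRs, aR, Fm.val]
    congr 1
    funext j
    split_ifs with h
    · rw [Tm.val, h, Function.update_self]
    · rw [Tm.val, Tm.val, Function.update_of_ne h]
  rw [h0, pr_aR]
  congr 2
  funext j
  unfold E
  by_cases hj : j = i
  · subst hj
    simp [hi]
  · simp [Function.update_of_ne hj]

theorem pr_tz (σ : ℕ → U × ℕ) : (tz k0).val (Ipr I k0 s wit gwit) σ = σ (k0 + 2) := rfl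

theorem pr_tS (t : Tm) (σ : ℕ → U × ℕ) : (tS k0 t).val (Ipr I k0 s wit gwit) σ =
    ((t.val (Ipr I k0 s wit gwit) σ).1, (t.val (Ipr I k0 s wit gwit) σ).2 + 1) := by
  simp only [tS, Tm.val]
  generalize (t.val (Ipr I k0 s wit gwit) σ) = u
  simp [Ipr, ith]

theorem pr_tf (k : ℕ) (σ : ℕ → U × ℕ) : (tf k0 k).val (Ipr I k0 s wit gwit) σ =
    (wit k (E k0 s σ), 0) := by
  simp only [tf, Ipr, Tm.val]
  rw [if_neg (by omega), if_neg (by omega), if_neg (by omega), if_pos trivial]
  have h1 : k0 + 1 + k - (k0 + 1) = k := by omega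
  rw [h1]
  congr 2
  funext j
  unfold envx E ith
  split_ifs <;> rfl

theorem pr_tg (k : ℕ) (σ : ℕ → U × ℕ) : (tg k0 k).val (Ipr I k0 s wit gwit) σ =
    (gwit k (E k0 s σ) (σ (k0 + 2)).2, 0) := by
  simp only [tg, Ipr, Tm.val]
  rw [if_neg (by omega), if_neg (by omega), if_neg (by omega), if_neg (by omega)]
  have h1 : k0 + 1 + k - (k0 + 1) = k := by omega
  rw [h1]
  have h2 : ith (s 0, 0) (fun j : Fin (k0 + 3) => σ j) (k0 + 2) = σ (k0 + 2) := by
    unfold ith
    rw [dif_pos (by omega)]
  rw [h2]
  congr 2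
  funext j
  unfold envx E ith
  split_ifs <;> first | rfl | omega

theorem mem_ofFn_lt {m : ℕ} {f : Fin m → ℕ} (j : Fin m) :
    f j < Encodable.encode (List.ofFn f) :=
  mem_lt_encode (by rw [List.mem_ofFn]; exact ⟨j, rfl⟩)

theorem pr_tm (t : Tm) (σ : ℕ → U × ℕ) (ht : t.code ≤ k0) :
    (t.val (Ipr I k0 s wit gwit) σ).1 = t.val I (E k0 s σ) := by
  induction t with
  | var i =>
    simp only [Tm.code] at ht
    simp only [Tm.val, E]
    rw [if_pos (by omega)]
  | fn k n ts ih =>
    simp only [Tm.code] at ht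
    have h1 := Nat.left_le_pair k (Encodable.encode (List.ofFn fun j => (ts j).code))
    have h2 := Nat.right_le_pair k (Encodable.encode (List.ofFn fun j => (ts j).code))
    simp only [Tm.val]
    have h3 : (Ipr I k0 s wit gwit).fn k n
        (fun j => (ts j).val (Ipr I k0 s wit gwit) σ) =
        (I.fn k n (fun j => ((ts j).val (Ipr I k0 s wit gwit) σ).1), 0) := by
      simp only [Ipr]
      rw [if_pos (by omega)]
    rw [h3]
    simp only
    congr 1
    funext j
    apply ih
    have := mem_ofFn_lt (f := fun j => (ts j).code) j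
    omega

end

theorem not_valid_star {F : Fm} (h : ¬ Valid Vdown F) : ¬ Valid Vdown (star F.code) := by
  rw [not_valid_iff] at h ⊢
  obtain ⟨U, hU, I, hI, s, h⟩ := h
  -- the witnesses
  have hw : ∀ (k : ℕ) (σ : ℕ → U), ∃ w : U,
      (∀ i A, Fm.ofCode k = Fm.all i A →
        (∃ u, ∀ v, A.val I (Function.update σ i u) ≤ A.val I (Function.update σ i v)) →
        ∀ v, A.val I (Function.update σ i w) ≤ A.val I (Function.update σ i v)) ∧
      (∀ i A, Fm.ofCode k = Fm.ex i A →
        ∀ v, A.val I (Function.update σ i v) ≤ A.val I (Function.update σ i w)) := by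
    intro k σ
    obtain ⟨u0⟩ := id hU
    generalize Fm.ofCode k = G
    cases G with
    | all i A =>
      by_cases hex : ∃ u, ∀ v, A.val I (Function.update σ i u) ≤ A.val I (Function.update σ i v)
      · obtain ⟨u, hu⟩ := hex
        refine ⟨u, ?_, ?_⟩
        · intro i' A' h1 _
          injection h1 with h1 h2
          subst h1; subst h2
          exact hu
        · intro i' A' h1
          exact absurd h1 (by simp)
      · refine ⟨u0, ?_, ?_⟩
        · intro i' A' h1 h3
          injection h1 with h1 h2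
          subst h1; subst h2
          exact absurd h3 hex
        · intro i' A' h1
          exact absurd h1 (by simp)
    | ex i A =>
      obtain ⟨u, hu⟩ := exists_max (fun v => A.val I (Function.update σ i v))
        (fun v => val_mem hI _ _)
      refine ⟨u, ?_, ?_⟩
      · intro i' A' h1
        exact absurd h1 (by simp)
      · intro i' A' h1
        injection h1 with h1 h2
        subst h1; subst h2
        exact hu
    | _ =>
      refine ⟨u0, ?_, ?_⟩ <;> intro i' A' h1 <;> exact absurd h1 (by simp)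
  have hg : ∀ (k : ℕ) (σ : ℕ → U) (t : ℕ), ∃ w : U,
      ∀ i A, Fm.ofCode k = Fm.all i A →
        ¬ (∃ u, ∀ v, A.val I (Function.update σ i u) ≤ A.val I (Function.update σ i v)) →
        A.val I (Function.update σ i w) ≤ 1 / ((t : ℝ) + 1) := by
    intro k σ t
    obtain ⟨u0⟩ := id hU
    generalize Fm.ofCode k = G
    cases G with
    | all i A =>
      rcases min_or_small (fun v => A.val I (Function.update σ i v))
        (fun v => val_mem hI _ _) with h1 | h1
      · refine ⟨u0, ?_⟩
        intro i' A' h2 h3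
        injection h2 with h4 h5
        subst h4; subst h5
        exact absurd h1 h3
      · obtain ⟨w, hw⟩ := h1 t
        refine ⟨w, ?_⟩
        intro i' A' h2 h3
        injection h2 with h4 h5
        subst h4; subst h5
        exact hw
    | _ =>
      refine ⟨u0, ?_⟩
      intro i' A' h1
      exact absurd h1 (by simp)
  choose wit hwA hwE using hw
  choose gwit hgw using hg
  set k0 := F.code with hk0
  have hJ : Good (Ipr I k0 s wit gwit) := good_pr k0 s wit gwit hI
  have : Nonempty (U × ℕ) := by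
    obtain ⟨u0⟩ := id hU
    exact ⟨(u0, 0)⟩
  refine ⟨U × ℕ, inferInstance, Ipr I k0 s wit gwit, hJ, fun _ => (s 0, 0), ?_⟩
  rw [star, exs_lt_one hJ]
  intro σ _
  rw [ors_lt_one]
  intro A hA
  have hCl : (aC k0).val (Ipr I k0 s wit gwit) σ < 1 := by
    rw [pr_aC]; norm_num
  have hleq : ∀ A B : Fm, A.val (Ipr I k0 s wit gwit) σ ≤ B.val (Ipr I k0 s wit gwit) σ →
      (leq k0 A B).val (Ipr I k0 s wit gwit) σ < 1 := by
    intro A B hAB
    rw [leq_lt_one hJ]
    exact Or.inl ⟨hAB, hCl⟩
  have heqv : ∀ (k : ℕ) (B : Fm), ev ((Fm.ofCode k).val I (E k0 s σ)) =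
      B.val (Ipr I k0 s wit gwit) σ →
      (eqv k0 (aR k0 k) B).val (Ipr I k0 s wit gwit) σ < 1 := by
    intro k B hB
    rw [eqv_lt_one hJ _ _ _ _ _ hCl, pr_aR, hB]
    rw [pr_aR, pr_aC]
    exact ev_le_half (val_mem hI _ _)
  simp only [clauses, List.mem_cons, List.mem_map, List.mem_range] at hA
  rcases hA with rfl | rfl | rfl | rfl | ⟨k, hk, rfl⟩
  · exact hCl
  · simp only [Fm.val, pr_aC]
    rw [gimp_lt_one (by norm_num)]
    have h1 : (aRc k0).val (Ipr I k0 s wit gwit) σ = ev (F.val I s) := by
      simp only [aRc, Fm.val, Ipr, Tm.val]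
      rw [if_neg (by omega), if_neg (by omega), if_neg (by omega)]
      have h1 : k0 + 1 + k0 - (k0 + 1) = k0 := by omega
      rw [h1, hk0, Fm.ofCode_code, ← hk0]
      congr 2
      funext j
      unfold envx ith
      split_ifs with h1
      · show (if k0 + 1 + j ≤ k0 then _ else (s (k0 + 1 + j - (k0 + 1)), 0) : U × ℕ).1 = s j
        rw [if_neg (by omega)]
        have h2 : k0 + 1 + j - (k0 + 1) = j := by omega
        rw [h2]
      · rfl
    rw [h1, ← ev_one, ev_lt_iff (val_mem hI _ _) one_mem_vdown]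
    exact h
  · apply hleq
    rw [pr_aY, pr_aC]
    have h0 : (0 : ℝ) ≤ (((tz k0).val (Ipr I k0 s wit gwit) σ).2 : ℝ) := Nat.cast_nonneg _
    rw [div_le_div_iff₀ (by linarith) (by norm_num)]
    linarith
  · simp only [Fm.val, pr_aY]
    rw [gimp_lt_one, pr_tS]
    · have h0 : (0 : ℝ) ≤ (((tz k0).val (Ipr I k0 s wit gwit) σ).2 : ℝ) := Nat.cast_nonneg _
      push_cast
      rw [div_lt_div_iff₀ (by linarith) (by linarith)]
      linarith
    · have h0 : (0 : ℝ) ≤ (((tz k0).val (Ipr I k0 s wit gwit) σ).2 : ℝ) := Nat.cast_nonneg _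
      rw [div_le_one (by linarith)]
      linarith
  · simp only [Fm.val, max_lt_iff]
    constructor
    · apply hleq
      rw [pr_aR, pr_aC]
      exact ev_le_half (val_mem hI _ _)
    · unfold clause
      have hcode := code_cases (Fm.ofCode k)
      simp only [Fm.code_ofCode] at hcode
      rcases hcode with ⟨hG, h0⟩ | ⟨p, n, ts, hG, h0, h1⟩ | ⟨A, B, hG, h0, h1, h2, h3⟩ |
        ⟨A, B, hG, h0, h1, h2, h3⟩ | ⟨A, B, hG, h0, h1, h2, h3⟩ | ⟨i, A, hG, h0, h1, h2, h3⟩ |
        ⟨i, A, hG, h0, h1, h2, h3⟩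
      · rw [if_pos h0]
        apply heqv
        rw [hG]
        simp [Fm.val, ev_zero]
      · rw [if_neg h0, if_pos h1]
        apply heqv
        have hcode : (Fm.atom p n ts).code = k := by rw [← hG, Fm.code_ofCode]
        rw [hG]
        simp only [Fm.val]
        simp only [Fm.code] at hcode
        have h4 := Nat.left_le_pair p (Encodable.encode (List.ofFn fun j => (ts j).code))
        have h5 := Nat.right_le_pair p (Encodable.encode (List.ofFn fun j => (ts j).code))
        have h6 : (Ipr I k0 s wit gwit).pred p n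
            (fun j => (ts j).val (Ipr I k0 s wit gwit) σ) =
            ev (I.pred p n (fun j => ((ts j).val (Ipr I k0 s wit gwit) σ).1)) := by
          simp only [Ipr]
          rw [if_pos (by omega)]
        rw [h6]
        congr 2
        funext j
        have := mem_ofFn_lt (f := fun j => (ts j).code) j
        rw [pr_tm]
        omega
      · rw [if_neg h0, if_neg (by omega), if_pos h1]
        apply heqv
        rw [hG, h2, h3]
        simp only [Fm.val, pr_aR, Fm.ofCode_code]
        rcases le_total (A.val I (E k0 s σ)) (B.val I (E k0 s σ)) with hle | hle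
        · rw [min_eq_left hle, min_eq_left]
          rwa [ev_le_iff (val_mem hI _ _) (val_mem hI _ _)]
        · rw [min_eq_right hle, min_eq_right]
          rwa [ev_le_iff (val_mem hI _ _) (val_mem hI _ _)]
      · rw [if_neg h0, if_neg (by omega), if_neg (by omega), if_pos h1]
        apply heqv
        rw [hG, h2, h3]
        simp only [Fm.val, pr_aR, Fm.ofCode_code]
        rcases le_total (A.val I (E k0 s σ)) (B.val I (E k0 s σ)) with hle | hle
        · rw [max_eq_right hle, max_eq_right]
          rwa [ev_le_iff (val_mem hI _ _) (val_mem hI _ _)]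
        · rw [max_eq_left hle, max_eq_left]
          rwa [ev_le_iff (val_mem hI _ _) (val_mem hI _ _)]
      · rw [if_neg h0, if_neg (by omega), if_neg (by omega), if_neg (by omega), if_pos h1]
        apply heqv
        rw [hG, h2, h3]
        simp only [Fm.val, pr_aR, pr_aC, Fm.ofCode_code]
        by_cases hle : A.val I (E k0 s σ) ≤ B.val I (E k0 s σ)
        · rw [gimp, if_pos hle, gimp, if_pos, min_eq_right (by norm_num), ev_one]
          rwa [ev_le_iff (val_mem hI _ _) (val_mem hI _ _)]
        · rw [gimp, if_neg hle, gimp, if_neg, min_eq_left]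
          · exact ev_le_half (val_mem hI _ _)
          · rwa [ev_le_iff (val_mem hI _ _) (val_mem hI _ _)]
      · have hi : i < k0 + 2 := by
          have := (unpair_div_lt h0).1
          omega
        rw [if_neg h0, if_neg (by omega), if_neg (by omega), if_neg (by omega),
          if_neg (by omega), if_pos h1, h2, h3]
        simp only [Fm.val, max_lt_iff, min_lt_iff]
        set f : U → ℝ := fun u => A.val I (Function.update (E k0 s σ) i u) with hf
        have hfV : ∀ u, f u ∈ Vdown := fun u => val_mem hI _ _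
        have hval : (Fm.ofCode k).val I (E k0 s σ) = ⨅ u, f u := by
          rw [hG]
          rfl
        constructor
        · apply hleq
          rw [pr_aR, pr_aRs _ _ _ _ _ _ _ _ hi, Fm.ofCode_code,
            ev_le_iff (val_mem hI _ _) (val_mem hI _ _), hval]
          exact ciInf_le (bddBelow_range f hfV) _
        · by_cases hatt : ∃ u, ∀ v, f u ≤ f v
          · left
            apply hleq
            rw [pr_aR, pr_aRs _ _ _ _ _ _ _ _ hi, Fm.ofCode_code,
              ev_le_iff (val_mem hI _ _) (val_mem hI _ _), hval, pr_tf]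
            exact le_ciInf (hwA k (E k0 s σ) i A hG hatt)
          · right
            apply hleq
            rw [pr_aY, pr_aRs _ _ _ _ _ _ _ _ hi, Fm.ofCode_code, pr_tg, pr_tz, ← ev_inv,
              ev_le_iff (val_mem hI _ _) (inv_mem_vdown _)]
            exact hgw k (E k0 s σ) _ i A hG hatt
      · have hi : i < k0 + 2 := by
          have := (unpair_div_lt h0).1
          omega
        rw [if_neg h0, if_neg (by omega), if_neg (by omega), if_neg (by omega),
          if_neg (by omega), if_neg (by omega), h2, h3]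
        simp only [Fm.val, max_lt_iff]
        set f : U → ℝ := fun u => A.val I (Function.update (E k0 s σ) i u) with hf
        have hfV : ∀ u, f u ∈ Vdown := fun u => val_mem hI _ _
        have hval : (Fm.ofCode k).val I (E k0 s σ) = ⨆ u, f u := by
          rw [hG]
          rfl
        constructor
        · apply hleq
          rw [pr_aR, pr_aRs _ _ _ _ _ _ _ _ hi, Fm.ofCode_code,
            ev_le_iff (val_mem hI _ _) (val_mem hI _ _), hval]
          exact le_ciSup (bddAbove_range f hfV) _
        · apply hleq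
          rw [pr_aR, pr_aRs _ _ _ _ _ _ _ _ hi, Fm.ofCode_code,
            ev_le_iff (val_mem hI _ _) (val_mem hI _ _), hval, pr_tf]
          exact ciSup_le (hwE k (E k0 s σ) i A hG)

theorem valid_star_iff (F : Fm) : Valid Vdown F ↔ Valid Vdown (star F.code) := by
  constructor
  · intro h
    by_contra hc
    exact not_valid_of_star hc h
  · intro h
    by_contra hc
    exact not_valid_star hc h

end Pool.Agent.Lib.MP_80950a_lc
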