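import Pool.Agent.Lib.MP_80950a_lc.StarB

/-!
The map `k0 ↦ (star k0).code` is computable; prenex forms for `Vdown`.
-/

set_option autoImplicit false
set_option linter.unusedSectionVars false

namespace Pool.Agent.Lib.MP_80950a_lc

section
variable {α : Type} [Primcodable α]

/-- primitive recursive family of formulas -/
def PF (A : α → Fm) : Prop := Primrec fun a => (A a).code
/-- primitive recursive family of terms -/
def PT (t : α → Tm) : Prop := Primrec fun a => (t a).code

theorem pr_lin {f : α → ℕ} (c d : ℕ) (hf : Primrec f) : Primrec fun a => c * f a + d :=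
  Primrec.nat_add.comp (Primrec.nat_mul.comp (Primrec.const c) hf) (Primrec.const d)

theorem pr_pair {f g : α → ℕ} (hf : Primrec f) (hg : Primrec g) :
    Primrec fun a => Nat.pair (f a) (g a) := Primrec₂.natPair.comp hf hg

theorem pf_and {A B : α → Fm} (hA : PF A) (hB : PF B) : PF fun a => Fm.and (A a) (B a) :=
  pr_lin 6 2 (pr_pair hA hB)
theorem pf_or {A B : α → Fm} (hA : PF A) (hB : PF B) : PF fun a => Fm.or (A a) (B a) :=
  pr_lin 6 3 (pr_pair hA hB)
theorem pf_imp {A B : α → Fm} (hA : PF A) (hB : PF B) : PF fun a => Fm.imp (A a) (B a) :=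
  pr_lin 6 4 (pr_pair hA hB)
theorem pf_bot : PF fun _ : α => Fm.bot := Primrec.const _
theorem pf_ofCode {f : α → ℕ} (hf : Primrec f) : PF fun a => Fm.ofCode (f a) := by
  unfold PF
  simp only [Fm.code_ofCode]
  exact hf

theorem pf_ite {c : α → Prop} [DecidablePred c] (hc : PrimrecPred c) {A B : α → Fm}
    (hA : PF A) (hB : PF B) : PF fun a => if c a then A a else B a := by
  unfold PF
  have : (fun a => (if c a then A a else B a).code) =
      fun a => if c a then (A a).code else (B a).code := by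
    funext a
    split_ifs <;> rfl
  rw [this]
  exact Primrec.ite hc hA hB

theorem pt_ite {c : α → Prop} [DecidablePred c] (hc : PrimrecPred c) {A B : α → Tm}
    (hA : PT A) (hB : PT B) : PT fun a => if c a then A a else B a := by
  unfold PT
  have : (fun a => (if c a then A a else B a).code) =
      fun a => if c a then (A a).code else (B a).code := by
    funext a
    split_ifs <;> rfl
  rw [this]
  exact Primrec.ite hc hA hB

theorem ofFn_eq_range_map {m : ℕ} (g : ℕ → ℕ) :
    (List.ofFn fun j : Fin m => g j) = (List.range m).map g := by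
  apply List.ext_getElem
  · simp
  · intro i h1 h2
    simp

theorem pf_atom {f m : α → ℕ} {t : α → ℕ → Tm} (hf : Primrec f) (hm : Primrec m)
    (ht : Primrec₂ fun a j => (t a j).code) :
    PF fun a => Fm.atom (f a) (m a) (fun j => t a j) := by
  unfold PF
  simp only [Fm.code]
  apply pr_lin
  apply pr_pair hf
  have : (fun a => Encodable.encode (List.ofFn fun j : Fin (m a) => (t a j).code)) =
      fun a => Encodable.encode ((List.range (m a)).map fun j => (t a j).code) := by
    funext a
    rw [ofFn_eq_range_map (fun j => (t a j).code)]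
  rw [this]
  exact Primrec.encode.comp (Primrec.list_map (Primrec.list_range.comp hm) ht)

theorem pt_fn {f m : α → ℕ} {t : α → ℕ → Tm} (hf : Primrec f) (hm : Primrec m)
    (ht : Primrec₂ fun a j => (t a j).code) :
    PT fun a => Tm.fn (f a) (m a) (fun j => t a j) := by
  unfold PT
  simp only [Tm.code]
  apply pr_lin
  apply pr_pair hf
  have : (fun a => Encodable.encode (List.ofFn fun j : Fin (m a) => (t a j).code)) =
      fun a => Encodable.encode ((List.range (m a)).map fun j => (t a j).code) := by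
    funext a
    rw [ofFn_eq_range_map (fun j => (t a j).code)]
  rw [this]
  exact Primrec.encode.comp (Primrec.list_map (Primrec.list_range.comp hm) ht)

theorem pt_var {f : α → ℕ} (hf : Primrec f) : PT fun a => Tm.var (f a) := by
  have := pr_lin 2 0 hf
  simpa [PT, Tm.code] using this

theorem pr_add {f g : α → ℕ} (hf : Primrec f) (hg : Primrec g) : Primrec fun a => f a + g a :=
  Primrec.nat_add.comp hf hg

theorem pr_addc {f : α → ℕ} (c : ℕ) (hf : Primrec f) : Primrec fun a => f a + c :=
  Primrec.nat_add.comp hf (Primrec.const c)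

variable {f g i : α → ℕ} (hf : Primrec f) (hg : Primrec g) (hi : Primrec i)

theorem pf_aC (hf : Primrec f) : PF fun a => aC (f a) :=
  pf_atom (t := fun _ _ => Tm.var 0) (pr_addc 1 hf) (Primrec.const 0) (Primrec.const _).to₂

theorem pf_aY (hf : Primrec f) {t : α → Tm} (ht : PT t) : PF fun a => aY (f a) (t a) :=
  pf_atom (t := fun a _ => t a) (pr_addc 1 hf) (Primrec.const 1) (ht.comp Primrec.fst).to₂

theorem pt_tS (hf : Primrec f) {t : α → Tm} (ht : PT t) : PT fun a => tS (f a) (t a) :=
  pt_fn (t := fun a _ => t a) (pr_addc 1 hf) (Primrec.const 1) (ht.comp Primrec.fst).to₂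

theorem pt_tz (hf : Primrec f) : PT fun a => tz (f a) := pt_var (pr_addc 2 hf)

theorem pf_aR (hf : Primrec f) (hg : Primrec g) : PF fun a => aR (f a) (g a) :=
  pf_atom (t := fun _ j => Tm.var j) (pr_add (pr_addc 1 hf) hg) (pr_addc 2 hf)
    (pt_var (α := α × ℕ) Primrec.snd).to₂

theorem pf_aRs (hf : Primrec f) (hg : Primrec g) (hi : Primrec i) {t : α → Tm} (ht : PT t) :
    PF fun a => aRs (f a) (g a) (i a) (t a) :=
  pf_atom (t := fun a j => if j = i a then t a else Tm.var j) (pr_add (pr_addc 1 hf) hg)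
    (pr_addc 2 hf)
    (pt_ite (α := α × ℕ) (c := fun p => p.2 = i p.1)
      (Primrec.eq.comp Primrec.snd (hi.comp Primrec.fst))
      (ht.comp Primrec.fst) (pt_var Primrec.snd)).to₂

theorem pf_aRc (hf : Primrec f) : PF fun a => aRc (f a) :=
  pf_atom (t := fun a j => Tm.fn (f a + 1 + j) 0 (fun _ => Tm.var 0))
    (pr_add (pr_addc 1 hf) hf) (pr_addc 2 hf)
    (pt_fn (α := α × ℕ) (f := fun p => f p.1 + 1 + p.2) (m := fun _ => 0)
      (t := fun _ _ => Tm.var 0)
      (pr_add (pr_addc 1 (hf.comp Primrec.fst)) Primrec.snd) (Primrec.const 0)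
      (Primrec.const _).to₂).to₂

theorem pt_tf (hf : Primrec f) (hg : Primrec g) : PT fun a => tf (f a) (g a) :=
  pt_fn (t := fun _ j => Tm.var j) (pr_add (pr_addc 1 hf) hg) (pr_addc 2 hf)
    (pt_var (α := α × ℕ) Primrec.snd).to₂

theorem pt_tg (hf : Primrec f) (hg : Primrec g) : PT fun a => tg (f a) (g a) :=
  pt_fn (t := fun _ j => Tm.var j) (pr_add (pr_addc 1 hf) hg) (pr_addc 3 hf)
    (pt_var (α := α × ℕ) Primrec.snd).to₂

theorem pf_leq (hf : Primrec f) {A B : α → Fm} (hA : PF A) (hB : PF B) :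
    PF fun a => leq (f a) (A a) (B a) :=
  pf_imp (pf_imp hA hB) (pf_aC hf)

theorem pf_eqv (hf : Primrec f) {A B : α → Fm} (hA : PF A) (hB : PF B) :
    PF fun a => eqv (f a) (A a) (B a) :=
  pf_imp (pf_and (pf_imp hA hB) (pf_imp hB hA)) (pf_aC hf)

theorem pf_clause (hf : Primrec f) (hg : Primrec g) : PF fun a => clause (f a) (g a) := by
  unfold clause
  have hm : Primrec fun a => (g a - 1) % 6 :=
    Primrec.nat_mod.comp (Primrec.nat_sub.comp hg (Primrec.const 1)) (Primrec.const 6)
  have hd : Primrec fun a => (g a - 1) / 6 :=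
    Primrec.nat_div.comp (Primrec.nat_sub.comp hg (Primrec.const 1)) (Primrec.const 6)
  have h1 : Primrec fun a => (Nat.unpair ((g a - 1) / 6)).1 :=
    Primrec.fst.comp (Primrec.unpair.comp hd)
  have h2 : Primrec fun a => (Nat.unpair ((g a - 1) / 6)).2 :=
    Primrec.snd.comp (Primrec.unpair.comp hd)
  have hc : ∀ c : ℕ, PrimrecPred fun a => (g a - 1) % 6 = c := fun c =>
    Primrec.eq.comp hm (Primrec.const c)
  refine pf_ite (Primrec.eq.comp hg (Primrec.const 0)) (pf_eqv hf (pf_aR hf hg) pf_bot) ?_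
  refine pf_ite (hc 0) (pf_eqv hf (pf_aR hf hg) (pf_ofCode hg)) ?_
  refine pf_ite (hc 1) (pf_eqv hf (pf_aR hf hg) (pf_and (pf_aR hf h1) (pf_aR hf h2))) ?_
  refine pf_ite (hc 2) (pf_eqv hf (pf_aR hf hg) (pf_or (pf_aR hf h1) (pf_aR hf h2))) ?_
  refine pf_ite (hc 3) (pf_eqv hf (pf_aR hf hg)
    (pf_and (pf_imp (pf_aR hf h1) (pf_aR hf h2)) (pf_aC hf))) ?_
  refine pf_ite (hc 4) (pf_or (pf_leq hf (pf_aR hf hg) (pf_aRs hf h2 h1 (pt_tz hf)))
    (pf_and (pf_leq hf (pf_aRs hf h2 h1 (pt_tf hf hg)) (pf_aR hf hg))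
      (pf_leq hf (pf_aRs hf h2 h1 (pt_tg hf hg)) (pf_aY hf (pt_tz hf))))) ?_
  exact pf_or (pf_leq hf (pf_aRs hf h2 h1 (pt_tz hf)) (pf_aR hf hg))
    (pf_leq hf (pf_aR hf hg) (pf_aRs hf h2 h1 (pt_tf hf hg)))

theorem ors_code (l : List Fm) :
    (ors l).code = (l.map Fm.code).foldr (fun a b => 6 * Nat.pair a b + 3) 0 := by
  induction l with
  | nil => rfl
  | cons A l ih =>
    have : ors (A :: l) = Fm.or A (ors l) := rfl
    rw [this]
    simp only [Fm.code, List.map_cons, List.foldr_cons, ih]

theorem exs_code (l : List ℕ) (A : Fm) :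
    (exs l A).code = l.foldr (fun a b => 6 * Nat.pair a b + 6) A.code := by
  induction l with
  | nil => rfl
  | cons i l ih =>
    have : exs (i :: l) A = Fm.ex i (exs l A) := rfl
    rw [this]
    simp only [Fm.code, List.foldr_cons, ih]

end

theorem pf_ors {α : Type} [Primcodable α] {L : α → List Fm}
    (hL : Primrec fun a => (L a).map Fm.code) : PF fun a => ors (L a) := by
  unfold PF
  simp only [ors_code]
  refine Primrec.list_foldr (f := fun a => (L a).map Fm.code) (g := fun _ => 0)
    (h := fun _ p => 6 * Nat.pair p.1 p.2 + 3) hL (Primrec.const 0) ?_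
  exact (pr_lin 6 3 (pr_pair (Primrec.fst.comp Primrec.snd) (Primrec.snd.comp Primrec.snd))).to₂

theorem pf_exs {α : Type} [Primcodable α] {L : α → List ℕ} {A : α → Fm}
    (hL : Primrec L) (hA : PF A) : PF fun a => exs (L a) (A a) := by
  unfold PF
  simp only [exs_code]
  refine Primrec.list_foldr (f := L) (g := fun a => (A a).code)
    (h := fun _ p => 6 * Nat.pair p.1 p.2 + 6) hL hA ?_
  exact (pr_lin 6 6 (pr_pair (Primrec.fst.comp Primrec.snd) (Primrec.snd.comp Primrec.snd))).to₂

theorem pf_star : PF (α := ℕ) star := by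
  unfold star
  apply pf_exs
  · exact Primrec.list_range.comp (pr_addc 3 Primrec.id)
  · apply pf_ors
    unfold clauses
    simp only [List.map_cons, List.map_map]
    have hid : Primrec fun a : ℕ => a := Primrec.id
    refine Primrec.list_cons.comp (pf_aC hid) ?_
    refine Primrec.list_cons.comp (pf_imp (pf_aC hid) (pf_aRc hid)) ?_
    refine Primrec.list_cons.comp (pf_leq hid (pf_aY hid (pt_tz hid)) (pf_aC hid)) ?_
    refine Primrec.list_cons.comp
      (pf_imp (pf_aY hid (pt_tz hid)) (pf_aY hid (pt_tS hid (pt_tz hid)))) ?_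
    refine Primrec.list_map (Primrec.list_range.comp (pr_addc 1 hid)) ?_
    have h1 : Primrec fun p : ℕ × ℕ => p.1 := Primrec.fst
    have h2 : Primrec fun p : ℕ × ℕ => p.2 := Primrec.snd
    exact (pf_or (pf_leq h1 (pf_aR h1 h2) (pf_aC h1)) (pf_clause h1 h2)).to₂

theorem hasPrenexForms_vdown : HasPrenexForms Vdown :=
  ⟨fun k => (star k).code, Primrec.to_comp pf_star, fun F =>
    ⟨star F.code, prenex_star _, rfl, valid_star_iff F⟩⟩

end Pool.Agent.Lib.MP_80950a_lc
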