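import Pool.Agent.Lib.MP_80950a_lc.Codes

/-!
Semantic facts about the truth value set `Vdown`.
-/

set_option autoImplicit false

namespace Pool.Agent.Lib.MP_80950a_lc

theorem vdown_nonneg {x : ℝ} (h : x ∈ Vdown) : 0 ≤ x := by
  rcases h with rfl | ⟨n, rfl⟩
  · exact le_refl _
  · positivity

theorem vdown_le_one {x : ℝ} (h : x ∈ Vdown) : x ≤ 1 := by
  rcases h with rfl | ⟨n, rfl⟩
  · exact zero_le_one
  · rw [div_le_one (by positivity)]
    have : (0 : ℝ) ≤ n := Nat.cast_nonneg n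
    linarith

theorem zero_mem_vdown : (0 : ℝ) ∈ Vdown := Or.inl rfl

theorem one_mem_vdown : (1 : ℝ) ∈ Vdown := Or.inr ⟨0, by norm_num⟩

theorem inv_mem_vdown (n : ℕ) : 1 / ((n : ℝ) + 1) ∈ Vdown := Or.inr ⟨n, rfl⟩

theorem inv_mem_vdown' (n : ℕ) : 1 / ((n : ℝ) + 2) ∈ Vdown :=
  Or.inr ⟨n + 1, by push_cast; ring⟩

theorem isGodelSet_vdown : IsGodelSet Vdown := by
  refine ⟨?_, fun x hx => ⟨vdown_nonneg hx, vdown_le_one hx⟩, zero_mem_vdown, one_mem_vdown⟩
  have h := (tendsto_one_div_add_atTop_nhds_zero_nat (𝕜 := ℝ)).isCompact_insert_range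
  have : Vdown = insert (0 : ℝ) (Set.range fun n : ℕ => 1 / ((n : ℝ) + 1)) := by
    ext x
    constructor
    · rintro (rfl | ⟨n, rfl⟩)
      · exact Or.inl rfl
      · exact Or.inr ⟨n, rfl⟩
    · rintro (rfl | ⟨n, rfl⟩)
      · exact Or.inl rfl
      · exact Or.inr ⟨n, rfl⟩
  rw [this]
  exact h.isClosed

theorem gimp_mem {a b : ℝ} (hb : b ∈ Vdown) : gimp a b ∈ Vdown := by
  unfold gimp
  split_ifs
  · exact one_mem_vdown
  · exact hb

theorem gimp_lt_one {a b : ℝ} (ha : a ≤ 1) : gimp a b < 1 ↔ b < a := by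
  unfold gimp
  split_ifs with h
  · simp [h]
  · push Not at h
    constructor
    · intro _
      exact h
    · intro _
      linarith

theorem inv_le_inv_iff (m n : ℕ) : 1 / ((m : ℝ) + 1) ≤ 1 / ((n : ℝ) + 1) ↔ n ≤ m := by
  rw [div_le_div_iff₀ (by positivity) (by positivity)]
  constructor
  · intro h
    have : (n : ℝ) ≤ m := by linarith
    exact_mod_cast this
  · intro h
    have : (n : ℝ) ≤ m := by exact_mod_cast h
    linarith

theorem exists_max {U : Type} [Nonempty U] (f : U → ℝ) (hf : ∀ u, f u ∈ Vdown) :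
    ∃ u, ∀ v, f v ≤ f u := by
  classical
  by_cases h : ∃ m : ℕ, ∃ u, f u = 1 / ((m : ℝ) + 1)
  · obtain ⟨u, hu⟩ := Nat.find_spec h
    refine ⟨u, fun v => ?_⟩
    rcases hf v with h0 | ⟨k, hk⟩
    · rw [h0]
      exact vdown_nonneg (hf u)
    · rw [hk, hu, inv_le_inv_iff]
      exact Nat.find_min' h ⟨v, hk⟩
  · push Not at h
    have h0 : ∀ v, f v = 0 := by
      intro v
      rcases hf v with h0 | ⟨k, hk⟩
      · exact h0
      · exact absurd hk (h k v)
    obtain ⟨u⟩ := ‹Nonempty U›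
    exact ⟨u, fun v => by rw [h0, h0]⟩

theorem min_or_small {U : Type} [Nonempty U] (f : U → ℝ) (hf : ∀ u, f u ∈ Vdown) :
    (∃ u, ∀ v, f u ≤ f v) ∨ ∀ t : ℕ, ∃ u, f u ≤ 1 / ((t : ℝ) + 1) := by
  classical
  by_cases h : ∀ t : ℕ, ∃ u, f u ≤ 1 / ((t : ℝ) + 1)
  · exact Or.inr h
  · left
    push Not at h
    obtain ⟨t, ht⟩ := h
    -- all the values are `1/(m+1)` with `m < t`
    have h1 : ∀ u, ∃ m : ℕ, m < t ∧ f u = 1 / ((m : ℝ) + 1) := by
      intro u
      rcases hf u with h0 | ⟨k, hk⟩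
      · have := ht u
        rw [h0] at this
        have h2 : (0 : ℝ) < 1 / ((t : ℝ) + 1) := by positivity
        linarith
      · refine ⟨k, ?_, hk⟩
        by_contra hc
        push Not at hc
        have := ht u
        rw [hk] at this
        exact absurd ((inv_le_inv_iff k t).2 hc) (not_le.2 this)
    choose m hm hfm using h1
    have h2 : ∃ d : ℕ, ∃ u, t - m u = d := by
      obtain ⟨u⟩ := ‹Nonempty U›
      exact ⟨_, u, rfl⟩
    obtain ⟨u, hu⟩ := Nat.find_spec h2
    refine ⟨u, fun v => ?_⟩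
    rw [hfm u, hfm v, inv_le_inv_iff]
    have h3 := Nat.find_min' h2 ⟨v, rfl⟩
    have h4 := hm u
    have h5 := hm v
    omega

theorem bddAbove_range {U : Type} (f : U → ℝ) (hf : ∀ u, f u ∈ Vdown) :
    BddAbove (Set.range f) :=
  ⟨1, by rintro _ ⟨u, rfl⟩; exact vdown_le_one (hf u)⟩

theorem bddBelow_range {U : Type} (f : U → ℝ) (hf : ∀ u, f u ∈ Vdown) :
    BddBelow (Set.range f) :=
  ⟨0, by rintro _ ⟨u, rfl⟩; exact vdown_nonneg (hf u)⟩

theorem iSup_eq_of_max {U : Type} [Nonempty U] (f : U → ℝ) {u : U} (h : ∀ v, f v ≤ f u) :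
    ⨆ v, f v = f u := by
  apply le_antisymm
  · exact ciSup_le h
  · exact le_ciSup (f := f) ⟨f u, by rintro _ ⟨v, rfl⟩; exact h v⟩ u

theorem iInf_eq_of_min {U : Type} [Nonempty U] (f : U → ℝ) {u : U} (h : ∀ v, f u ≤ f v) :
    ⨅ v, f v = f u := by
  apply le_antisymm
  · exact ciInf_le (f := f) ⟨f u, by rintro _ ⟨v, rfl⟩; exact h v⟩ u
  · exact le_ciInf h

theorem iInf_eq_zero_of_small {U : Type} [Nonempty U] (f : U → ℝ) (hf : ∀ u, f u ∈ Vdown)
    (h : ∀ t : ℕ, ∃ u, f u ≤ 1 / ((t : ℝ) + 1)) : ⨅ v, f v = 0 := by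
  apply le_antisymm
  · apply le_of_forall_pos_lt_add
    intro ε hε
    obtain ⟨t, ht⟩ := exists_nat_one_div_lt hε
    obtain ⟨u, hu⟩ := h t
    have := ciInf_le (bddBelow_range f hf) u
    linarith
  · exact le_ciInf fun v => vdown_nonneg (hf v)

theorem iSup_mem {U : Type} [Nonempty U] (f : U → ℝ) (hf : ∀ u, f u ∈ Vdown) :
    ⨆ v, f v ∈ Vdown := by
  obtain ⟨u, hu⟩ := exists_max f hf
  rw [iSup_eq_of_max f hu]
  exact hf u

theorem iInf_mem {U : Type} [Nonempty U] (f : U → ℝ) (hf : ∀ u, f u ∈ Vdown) :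
    ⨅ v, f v ∈ Vdown := by
  rcases min_or_small f hf with ⟨u, hu⟩ | h
  · rw [iInf_eq_of_min f hu]
    exact hf u
  · rw [iInf_eq_zero_of_small f hf h]
    exact zero_mem_vdown

theorem iSup_lt_one_iff {U : Type} [Nonempty U] (f : U → ℝ) (hf : ∀ u, f u ∈ Vdown) :
    ⨆ v, f v < 1 ↔ ∀ v, f v < 1 := by
  obtain ⟨u, hu⟩ := exists_max f hf
  rw [iSup_eq_of_max f hu]
  exact ⟨fun h v => lt_of_le_of_lt (hu v) h, fun h => h u⟩

/-- all atomic values are in `Vdown` -/
def Good {U : Type} (I : Interp U) : Prop := ∀ k n x, I.pred k n x ∈ Vdown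

theorem val_mem {U : Type} [Nonempty U] {I : Interp U} (hI : Good I) (F : Fm) :
    ∀ s : ℕ → U, F.val I s ∈ Vdown := by
  induction F with
  | bot => intro s; exact zero_mem_vdown
  | atom k n ts => intro s; exact hI _ _ _
  | and A B ihA ihB =>
    intro s
    simp only [Fm.val]
    rcases min_choice (A.val I s) (B.val I s) with h | h <;> rw [h]
    · exact ihA s
    · exact ihB s
  | or A B ihA ihB =>
    intro s
    simp only [Fm.val]
    rcases max_choice (A.val I s) (B.val I s) with h | h <;> rw [h]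
    · exact ihA s
    · exact ihB s
  | imp A B ihA ihB =>
    intro s
    exact gimp_mem (ihB s)
  | all i A ihA =>
    intro s
    exact iInf_mem _ fun u => ihA _
  | ex i A ihA =>
    intro s
    exact iSup_mem _ fun u => ihA _

theorem val_le_one {U : Type} [Nonempty U] {I : Interp U} (hI : Good I) (F : Fm) (s : ℕ → U) :
    F.val I s ≤ 1 := vdown_le_one (val_mem hI F s)

theorem not_valid_iff (F : Fm) : ¬ Valid Vdown F ↔
    ∃ (U : Type) (_ : Nonempty U) (I : Interp U) (_ : Good I) (s : ℕ → U), F.val I s < 1 := by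
  unfold Valid
  push Not
  constructor
  · rintro ⟨U, hU, I, hI, s, h⟩
    exact ⟨U, hU, I, hI, s, lt_of_le_of_ne (val_le_one hI F s) h⟩
  · rintro ⟨U, hU, I, hI, s, h⟩
    exact ⟨U, hU, I, hI, s, ne_of_lt h⟩

/-- a disjunction of a list of formulas -/
def ors (l : List Fm) : Fm := l.foldr Fm.or Fm.bot

theorem ors_lt_one {U : Type} {I : Interp U} (l : List Fm) (s : ℕ → U) :
    (ors l).val I s < 1 ↔ ∀ A ∈ l, A.val I s < 1 := by
  induction l with
  | nil => simp [ors, Fm.val]
  | cons A l ih =>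
    have : ors (A :: l) = Fm.or A (ors l) := rfl
    rw [this]
    simp only [Fm.val, max_lt_iff, List.mem_cons, forall_eq_or_imp, ih]

/-- a block of existential quantifiers -/
def exs (l : List ℕ) (A : Fm) : Fm := l.foldr Fm.ex A

theorem exs_lt_one {U : Type} [Nonempty U] {I : Interp U} (hI : Good I) (l : List ℕ) (A : Fm) :
    ∀ s : ℕ → U, (exs l A).val I s < 1 ↔
      ∀ s' : ℕ → U, (∀ j, j ∉ l → s' j = s j) → A.val I s' < 1 := by
  induction l with
  | nil =>
    intro s
    constructor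
    · intro h s' hs'
      have : s' = s := funext fun j => hs' j (by simp)
      rw [this]
      exact h
    · intro h
      exact h s fun _ _ => rfl
  | cons i l ih =>
    intro s
    have : exs (i :: l) A = Fm.ex i (exs l A) := rfl
    rw [this]
    simp only [Fm.val]
    rw [iSup_lt_one_iff _ (fun u => val_mem hI _ _)]
    constructor
    · intro h s' hs'
      apply (ih _).1 (h (s' i))
      intro j hj
      by_cases hji : j = i
      · subst hji
        simp
      · rw [Function.update_of_ne hji]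
        exact hs' j (by simp [hji, hj])
    · intro h v
      rw [ih]
      intro s' hs'
      apply h
      intro j hj
      simp only [List.mem_cons, not_or] at hj
      rw [hs' j hj.2, Function.update_of_ne hj.1]

theorem prenex_exs (l : List ℕ) {A : Fm} (h : QF A) : Prenex (exs l A) := by
  induction l with
  | nil => exact Prenex.qf h
  | cons i l ih => exact Prenex.ex i ih

theorem qf_ors (l : List Fm) (h : ∀ A ∈ l, QF A) : QF (ors l) := by
  induction l with
  | nil => exact QF.bot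
  | cons A l ih =>
    exact QF.or (h A (by simp)) (ih fun B hB => h B (by simp [hB]))

end Pool.Agent.Lib.MP_80950a_lc
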